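import Pool.Agent.Helper42.SG.GoalsC

/-!
# Project SG, module T (sections 5, 6.1, 6.2, 7): Taylor expansions, the norm polynomial, END1
-/

set_option autoImplicit false

open MvPolynomial

namespace Pool.Agent.Helper42.SG

open WeierstrassCurve Height
open Pool.Agent.Helper29.BL Pool.Agent.Helper92.Ru

/-- FRPS: the power series frame is a norm frame (finite index type), and the Cauchy estimate.
Nonarchimedean: `(fg)_α = ∑_(β+γ=α) f_β g_γ`. Archimedean: `∑_(α∈S) |(fg)_α| r^α ≤ ∑_(β∈S', γ∈S') |f_β| r^β |g_γ| r^γ`,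
`S'` = all exponents below elements of `S`. -/
def FRPS : Prop :=
  ∀ (K : Type) [Field K] (v : AbsoluteValue K ℝ) (σ : Type) [Fintype σ] (r : σ → ℝ), (∀ i, 0 < r i) →
    NFr v (NPS (K := K) v r) ∧
    ∀ (f : MvPowerSeries σ K) (T : ℝ) (α : σ →₀ ℕ), NPS v r f T →
      v (MvPowerSeries.coeff α f) * rpw r α ≤ T

/-- FRPT: the algebra `K` itself is a norm frame: `N f T := v f ≤ T`. -/
def FRPT : Prop :=
  ∀ (K : Type) [Field K] (v : AbsoluteValue K ℝ), NFr (A := K) v (fun f T => v f ≤ T)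

/-- TAY (section 5): existence of the Taylor expansion with its norms. `X_h = ξ_h + 4 ψ_h^2 τ_h`;
`B(ξ + 4ψ^2 τ) = ψ^2 (1 + 4g)`, `g = τ (B'(ξ) + (12ξ + b₂) 4ψ^2 τ + 64 ψ^4 τ^2)`; `Ψ = ψ sqrt(1 + 4g)`,
`sqrt(1 + 4u) = 1 + 2 ∑_(k≥1) (-1)^(k-1) C_(k-1) u^k ∈ ℤ[[u]]` (Catalan numbers `≤ 4^(k-1)`; Mathlib has
`catalan` and its recursion, so the square of this series is `1 + 4u`).
`r_h = 1 / (B_v M_v(ξ_h)^2)`: `N(g) ≤ 1/16` (arch.) or `≤ 1` (nonarch.) if `B_v` is large: `|ψ^2| = |B(ξ)| ≤ B'_v M^3`.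
`N(Ψ) ≤ |ψ| (1 + 2∑ 4^(k-1) 16^(-k)) ≤ 2 |ψ|`, `|ψ|^2 ≤ B'_v M^3`. The sum `∑ (-1)^(k-1) C_(k-1) g^k` is a
well-defined power series because `g` has no constant term; coefficients of weight `< k` of `g^k` vanish. -/
def TAY : Prop :=
  ∀ (K : Type) [Field K] [NumberField K] (W : ℕ → Affine K) (n : ℕ),
    ∃ B : AbsoluteValue K ℝ → ℝ, PlC B ∧ ∀ ξ ψ : ℕ → K,
      (∀ h < 2 * n + 2, ψ h ^ 2 = Bf (W (h % 2)) (ξ h) ∧ ψ h ≠ 0) →
      ∃ X Ψ : ℕ → MvPowerSeries (Fin (2 * n + 2)) K, Tay W n ξ ψ X Ψ ∧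
        ∀ (v : AbsoluteValue K ℝ) (h : Fin (2 * n + 2)),
          NPS v (fun i : Fin (2 * n + 2) => 1 / (B v * Mv v (ξ i.val) ^ 2)) (X h.val)
            (B v * Mv v (ξ h.val)) ∧
          NPS v (fun i : Fin (2 * n + 2) => 1 / (B v * Mv v (ξ i.val) ^ 2)) (Ψ h.val)
            (B v * Mv v (ξ h.val) ^ 2)

/-- NZ1: over an algebraically closed field of characteristic `0`: if `R` is not a 2-torsion point and `G ≠ 0` is
a polynomial of degree `< 4^e` then there is `P` with `2^e P = R`, `G(x(P)) ≠ 0`.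
Proof. (a) `Φ_e' Ψ_e - Φ_e Ψ_e' = 2^e R_e` as polynomials in `X` (`Ph`, `Rr` over `Ω[X]` at `x = X`): induction;
`∂_t A · B - A · ∂_t B = 2 z C(t, z)` and `z (∂_z A · B - A · ∂_z B) = - t (∂_t A · B - A · ∂_t B)` (Euler), so
the Wronskian of `(A(Φ,Ψ), B(Φ,Ψ))` is `2 C(Φ,Ψ) (Φ'Ψ - ΦΨ')` (or check this directly by `ring` after
expanding the derivatives). (b) `Φ_e` is monic of degree `4^e`, `deg Ψ_e < 4^e`. Let `u = x(R)`, `B(u) ≠ 0`,
`f = Φ_e - u Ψ_e`, of degree `4^e`. At a root `ξ` of `f`: `Ψ_e(ξ) ≠ 0` (EDUP: `Φ_e`, `Ψ_e` have no common zero; every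
`ξ` is `x` of a point), `f'(ξ) Ψ_e(ξ) = 2^e R_e(ξ)`, and `R_e(ξ)^2 B(ξ) = B(Φ_e, Ψ_e) = Ψ_e(ξ)^4 B(u) ≠ 0` (RPOL), so `f` is
separable and has `4^e` different roots; one of them is not a root of `G`. It is `x(P)` for a point `P`,
`x(2^e P) = u`, so `2^e P = ± R`; replace `P` by `-P`. Assume RPOL, EDUP. -/
def NZ1 : Prop :=
  ∀ (Ω : Type) [Field Ω] [IsAlgClosed Ω] [CharZero Ω] [DecidableEq Ω] (W : Affine Ω)
    [W.IsElliptic] (R : W.Point) (e : ℕ) (G : Polynomial Ω), 2 • R ≠ 0 → G ≠ 0 →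
    G.natDegree < 4 ^ e → ∃ P : W.Point, P ≠ 0 ∧ (2 ^ e) • P = R ∧ G.eval (xc P) ≠ 0

/-- NZV: one variable, finitely many coefficient arrays, both signs.
Proof. For a nonzero array `a(l, m)` let `f(P) = ∑ a(l,m) x(P)^l (L^0_1)^(M-m) (L^0_2)^m` (`η = ψ(P) ψ(Q)`).
(a) `f` is not identically zero: choose `w` with `∑_m a(l,m) x(w)^m ≠ 0` for some `l`, `w ≠ 0`, `2(w + Q) ≠ 0`,
`w + 2Q ≠ 0` (only finitely many `x(w)` are excluded), NZ1 with `R = w + Q`,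
`G = ∑_l (∑_m a(l,m) x(w)^m) X^l`, and ELAW (`2^e P - Q = w`, `2^e P + Q = w + 2Q`).
(b) `f` is of the form `p(x(P)) + ψ(P) q(x(P))`, `p, q ∈ Ω[X]` (expand, `ψ^2 = B(x)`); `f(P) = 0` implies
`p^2 - B q^2 = 0` at `x(P)`, and this polynomial is not zero: otherwise (degrees, `deg B = 3`) `p = q = 0`.
The function with the sign `-1` is `P ↦ f(-P)`, it has the same norm `p^2 - B q^2`. So all conditions exclude
finitely many values of `x(P)`, and `Ω` is infinite. Assume NZ1, ELAW. -/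
def NZV : Prop :=
  ∀ (Ω : Type) [Field Ω] [IsAlgClosed Ω] [CharZero Ω] [DecidableEq Ω] (W : Affine Ω)
    [W.IsElliptic] (Q : W.Point) (e M : ℕ) (ι : Type) [Finite ι]
    (a : ι → Fin (4 ^ e) × Fin (M + 1) → Ω), Q ≠ 0 → (∀ k, a k ≠ 0) →
    ∃ P : W.Point, P ≠ 0 ∧ ∀ (k : ι) (s : ℤˣ),
      ∑ α : Fin (4 ^ e) × Fin (M + 1), a k α * (xc P ^ α.1.val *
        ((law W e false (xc P) (xc Q) (((s : ℤ) : Ω) * ps P * ps Q)).1 ^ (M - α.2.val) *
          (law W e false (xc P) (xc Q) (((s : ℤ) : Ω) * ps P * ps Q)).2 ^ α.2.val)) ≠ 0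

/-- NZF (6.1, nonvanishing), at a given point `x_0`: `X0, Ψ0` (values for `i = 0, 1`) over `Ω` algebraically closed,
of characteristic `0`, such that the array `∑_β c(α, β) X0^β` (indexed by `α`) is not zero. There are values
`(X_h, Ψ_h)`, `h < 2n`, on the curves, such that `P^0` is not zero for EVERY choice of the signs of `η_h`, `h < 2n` (the
signs are put on `Ψ_h`).
Proof. Let `Q_0, Q_1 ≠ 0` be the points of the curves `W 0`, `W 1` over `Ω` with `x = X0 i` and `ψ = Ψ0 i` (a point with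
`x = X0 i` exists, and `ψ(Q)^2 = B(x)`: change the sign). Choose the points `P_0, P_1, .., P_(2n-1)` one after the
other with NZV such that for every sign vector `ε` of length `h + 1` the partially evaluated array (indexed by the
indices `α_i`, `i > h`) is not zero: there are `2^h` nonzero arrays after step `h - 1`; for each choose a value of
the indices `α_i`, `i > h`, for which it is not zero as an array in `α_h`, and use NZV for this finite family.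
`X_h = x(P_h)`, `Ψ_h = ψ(P_h)`. Assume NZV. (The types of the points depend on `h % 2`; work with the `x`- and
`ψ`-values: restate NZV in terms of values `X, Ψ ∈ Ω` with `Ψ^2 = B(X)` first.) -/
def NZF : Prop :=
  ∀ (K : Type) [Field K] [NumberField K] (W : ℕ → Affine K), (∀ i, (W i).IsElliptic) →
    ∀ (n M δ : ℕ) (e : ℕ → ℕ) (c : Idx n M δ e → K) (Ω : Type) [Field Ω] [Algebra K Ω]
      [IsAlgClosed Ω] (X0 Ψ0 : ℕ → Ω), (∀ i < 2, Ψ0 i ^ 2 = Bf (mapW Ω W i) (X0 i)) →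
      (∃ α, ∑ β : Fin 2 → Fin δ, algebraMap K Ω (c (α, β)) * ∏ i : Fin 2, X0 i.val ^ (β i).val ≠ 0) →
      ∃ X Ψ : ℕ → Ω, OnW W n X Ψ ∧ (∀ i < 2, X (2 * n + i) = X0 i ∧ Ψ (2 * n + i) = Ψ0 i) ∧
        ∀ ε : ℕ → ℤˣ, Paux (mapW Ω W) n M δ e (fun α => algebraMap K Ω (c α)) (fun _ => false) X
          (fun h => if h < 2 * n then ((ε h : ℤ) : Ω) * Ψ h else Ψ h) ≠ 0

/-- NQ (6.1, 6.2): the norm polynomial. Assume NZF, ECOEF. General `M, δ ≥ 1`.
`Q` := the product of `P^0` over the `4^n` sign changes of `η_h`, `h < 2n`, a polynomial in the `X_h`: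
work in `K[X_h (h < 2n+2)][η_h (h < 2n)]` (or with `MvPolynomial (Fin (2n+2) ⊕ Fin (2n)) K`) and eliminate one
`η_h` after the other: `p + η_h q → p^2 - B(X_h) B(X_0h) q^2` (`p, q` not involving `η_h`, obtained from ECOEF or by
reduction modulo `η_h^2 = B B`).
NONZERO at `x_0`: for given `ξ0 i` with `∑_β c(α, β) ξ0^β ≠ 0` for some `α`, by NZF (`Ω` = algebraic closure of `K`; `Ψ0 i` =
a square root of `B(ξ0 i)`) there is a point `y` with `y_(2n+i) = ξ0 i` at which the value of `Q` is the product of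
the non-zero values of the conjugates. `Q ≠ 0` follows (choose `ξ0 ∈ K` suitably, `c ≠ 0`, `K` infinite).
DEGREES: `P^0` has weighted degree in `(X_h, ψ_h)` (weights `1, 2`) `≤ 2 q M + q` and in `(X_(0i), ψ_(0i))`
`≤ 2M·n + δ`; the product of `4^n` conjugates `≤ 4^n (2M + 1) q`, resp. `≤ 4^n (2 n M + δ)`: `ddM`. The rule
`wdeg(p + η q) ≤ d ⇒ wdeg(p^2 - B B q^2) ≤ 2d`: `deg p ≤ d`, `deg q ≤ d - 2`, `3 + 2(d-2) ≤ 2d`.
HEIGHT: in a submultiplicative norm at `v` (sum / max of the coefficients): `N(P^0) ≤ B_v^(∑q) max|c|_v`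
and `N(Q) ≤ B_v^(4^n ∑ q) (max|c|_v)^(4^n)`; sum over `v`: `max|c|_v ≤ 1` at nonarchimedean `v` (integrality),
`≤ house c` at the archimedean ones (a place of `archAbsVal` is a norm of a complex embedding).
INDEX: let `(X, Ψ)` be series (in any number of variables) with `OnW`; then
`Q(X_0, .., X_(2n+1)) = P^0(X, Ψ) * g` for a series `g` (the product of the conjugates, `η_h` replaced by
`Ψ_h Ψ_0h`; this holds in every commutative `K`-algebra). -/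
def NQ : Prop :=
  ∀ (K : Type) [Field K] [NumberField K] (W : ℕ → Affine K), (∀ i, (W i).IsElliptic) →
    ∀ n M δ : ℕ, 1 ≤ n → 1 ≤ M → 1 ≤ δ →
      ∃ C : ℝ, 0 ≤ C ∧ ∀ (e : ℕ → ℕ) (c : Idx n M δ e → K) (A : ℝ), c ≠ 0 → 0 ≤ A →
      (∀ α, IsIntegral ℤ (c α)) → (∀ α, NumberField.house (c α) ≤ Real.exp A) →
      ∃ Q : MvPolynomial (Fin (2 * n + 2)) K, Q ≠ 0 ∧ (∀ h, Q.degreeOf h ≤ ddM n M δ e h.val) ∧
        Real.log (PH Q) ≤ C * (sq n e + A) ∧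
        (∀ ξ0 : Fin 2 → K, (∃ α, ∑ β : Fin 2 → Fin δ, c (α, β) * ∏ i : Fin 2, ξ0 i ^ (β i).val ≠ 0) →
          ∃ y : ℕ → AlgebraicClosure K, (∀ i : Fin 2, y (2 * n + i.val) =
            algebraMap K (AlgebraicClosure K) (ξ0 i)) ∧ aeval (fun h => y h.val) Q ≠ 0) ∧
        ∀ (A : Type) [CommRing A] [Algebra K A] (X Ψ : ℕ → A), OnW W n X Ψ →
          ∃ g : A, aeval (fun h : Fin (2 * n + 2) => X h.val) Q =
            Paux (mapW A W) n M δ e (fun α => algebraMap K A (c α)) (fun _ => false) X Ψ * g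

/-- QIX (6.2): if all coefficients of weight `< θ` of the series `P^0(X, Ψ)` vanish, `(X, Ψ)` a Taylor expansion at
`(ξ, ψ)`, `ψ_h ≠ 0`, then a polynomial `Q` with `Q(X) = P^0(X, Ψ) g` has index `≥ θ` at `ξ`: all terms of `f * g` have
weight `≥ θ`, and `Q(ξ_h + 4 ψ_h^2 τ_h)` is `shiftP ξ Q` with `t_h = 4 ψ_h^2 τ_h`, `4 ψ_h^2 ≠ 0`. -/
def QIX : Prop :=
  ∀ (K : Type) [Field K] [NumberField K] (W : ℕ → Affine K) (n : ℕ) (ξ ψ : ℕ → K)
    (X Ψ : ℕ → MvPowerSeries (Fin (2 * n + 2)) K) (Q : MvPolynomial (Fin (2 * n + 2)) K)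
    (f g : MvPowerSeries (Fin (2 * n + 2)) K) (d : Fin (2 * n + 2) → ℕ) (θ : ℝ),
    Tay W n ξ ψ X Ψ → (∀ h < 2 * n + 2, ψ h ≠ 0) → (∀ h, 1 ≤ d h) →
    aeval (fun h : Fin (2 * n + 2) => X h.val) Q = f * g →
    (∀ α, wt d α < θ → MvPowerSeries.coeff α f = 0) → IndGe d (fun h => ξ h.val) θ Q

/-- MINC: coefficients of minimal weight. If `α` has minimal weight among the exponents with non-zero
coefficient in `f` (weights `1/d_i`, `d_i ≥ 1`) and `g` has the constant term `g_0`, then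
`(f g)_α = g_0 f_α`, and all coefficients of `f g` of smaller weight vanish. -/
def MINC : Prop :=
  ∀ (K : Type) [Field K] (σ : Type) [Fintype σ] (d : σ → ℕ) (f g : MvPowerSeries σ K)
    (α : σ →₀ ℕ), (∀ i, 1 ≤ d i) → (∀ β, wt d β < wt d α → MvPowerSeries.coeff β f = 0) →
    MvPowerSeries.coeff α (f * g) = MvPowerSeries.constantCoeff g * MvPowerSeries.coeff α f ∧
    ∀ β, wt d β < wt d α → MvPowerSeries.coeff β (f * g) = 0

/-- LAWC: change of the laws at a minimal coefficient. `α` of minimal weight in `P^0(X, Ψ)`; the values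
`L^0_h` of the laws at the point `(ξ, ψ)` are not `(0, 0)` and `L^1_h = ω_h L^0_h`. Then for every law vector
`lam` the coefficient `α` of `P^lam(X, Ψ)` is `∏_(lam h = 1) ω_h^n` times that of `P^0(X, Ψ)`.
Proof. Let `a ∈ {1, 2}` with `(L^0_h)_a ≠ 0` at the point for `h` with `lam h = true`. By RPOL
`L^0_1 L^1_2 = L^0_2 L^1_1`, so `P^lam ∏ ((L^0_h)_a)^n = P^0 ∏ ((L^1_h)_a)^n` (products over the `h` with
`lam h = true`; termwise: `(L^1_1)^(n-m) (L^1_2)^m (L^0_a)^n = (L^0_1)^(n-m) (L^0_2)^m (L^1_a)^n`), `(L^0_h)_a` has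
non-zero constant term, so is invertible: `P^lam = P^0 · g`, `g_0 = ∏ ω_h^n`. MINC. The constant terms
of `lawV` of the series are `lawV` at `(ξ, ψ)` (`constantCoeff` is a ring homomorphism; `law` is natural in the
ring). Assume RPOL, MINC. -/
def LAWC : Prop :=
  ∀ (K : Type) [Field K] [NumberField K] (W : ℕ → Affine K) (n : ℕ) (e : ℕ → ℕ)
    (c : Idx n n n e → K) (ξ ψ ω : ℕ → K) (X Ψ : ℕ → MvPowerSeries (Fin (2 * n + 2)) K)
    (d : Fin (2 * n + 2) → ℕ) (α : Fin (2 * n + 2) →₀ ℕ) (lam : ℕ → Bool),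
    Tay W n ξ ψ X Ψ → (∀ i, 1 ≤ d i) →
    (∀ h < 2 * n, (lawV (mapW K W) n e (fun _ => false) ξ ψ h).1 ≠ 0 ∨
      (lawV (mapW K W) n e (fun _ => false) ξ ψ h).2 ≠ 0) →
    (∀ h < 2 * n, (lawV (mapW K W) n e (fun _ => true) ξ ψ h).1 =
        ω h * (lawV (mapW K W) n e (fun _ => false) ξ ψ h).1 ∧
      (lawV (mapW K W) n e (fun _ => true) ξ ψ h).2 =
        ω h * (lawV (mapW K W) n e (fun _ => false) ξ ψ h).2) →
    (∀ β, wt d β < wt d α → MvPowerSeries.coeff β (Paux (mapW _ W) n n n e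
      (fun α => algebraMap K (MvPowerSeries (Fin (2 * n + 2)) K) (c α)) (fun _ => false) X Ψ) = 0) →
    MvPowerSeries.coeff α (Paux (mapW _ W) n n n e
      (fun α => algebraMap K (MvPowerSeries (Fin (2 * n + 2)) K) (c α)) lam X Ψ) =
    (∏ h ∈ Finset.range (2 * n), if lam h then ω h ^ n else 1) *
      MvPowerSeries.coeff α (Paux (mapW _ W) n n n e
        (fun α => algebraMap K (MvPowerSeries (Fin (2 * n + 2)) K) (c α)) (fun _ => false) X Ψ)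

/-- LOCE: the local estimate of section 7. Hypothesis on `ω_h`: (3.3) at `v`.
Proof. `lam h := decide (1 < v (ω_h))`, so `∏_(lam h) |ω_h|^n = ∏_h M_v(ω_h)^n`. KEY in the frame `NPS v r`
(FRPS), `r_h = 1/(B' v M_v(ξ_h)^2)`, `a_h = B' v * M_v(ξ_h)`, `b = B' v`, and the Cauchy estimate:
`∏ M_v(ω_h)^n |δ|_v ≤ s b^(4n) B_v^(∑q) keyB(a) ∏_h r_h^(-α_h)`.
`keyB n k0 e a ≤ (B' v)^(..) keyB n k0 e (M_v(ξ))`, the exponent of `B' v` is
`≤ ∑_j (2(2 q_j n + q_j) + 4n) + 2n ≤ 12 n ∑ q_j` (`min(a, a') ≥ min(M, M')`). In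
`keyB n k0 e (M) = ∏_j (M_(2j) M_(2j+1))^(2 q_j n + q_j) (M_(2n) M_(2n+1))^(2n) / min^(k0 q_j) · (..)^n` use (3.3) to
the power `n`: `M_v(ξ_h)^(2 q_h n) M_v(ξ_0h)^(2n) ≤ B''^(q_h n) max|L^0_h|^n M_v(ω_h)^n`. Cancel
`∏ M_v(ω_h)^n`. Final constant `Bt v := (B v) (B' v)^(16n) (B'' v)^(2n)`.
Assume FRPS. -/
def LOCE : Prop :=
  ∀ (K : Type) [Field K] [NumberField K] (W : ℕ → Affine K) (n k0 : ℕ) (B B' B'' : AbsoluteValue K ℝ → ℝ),
    1 ≤ n → PlC B → PlC B' → PlC B'' → ∃ Bt : AbsoluteValue K ℝ → ℝ, PlC Bt ∧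
    ∀ (e : ℕ → ℕ) (c : Idx n n n e → K) (ξ ψ ω : ℕ → K)
      (X Ψ : ℕ → MvPowerSeries (Fin (2 * n + 2)) K) (α : Fin (2 * n + 2) →₀ ℕ) (δ : K)
      (v : AbsoluteValue K ℝ) (s : ℝ),
      KEY W n k0 e c B → OnW W n X Ψ → (∀ α, v (c α) ≤ s) →
      (∀ h < 2 * n + 2,
        NPS v (fun i : Fin (2 * n + 2) => 1 / (B' v * Mv v (ξ i.val) ^ 2)) (X h)
            (B' v * Mv v (ξ h)) ∧
          NPS v (fun i : Fin (2 * n + 2) => 1 / (B' v * Mv v (ξ i.val) ^ 2)) (Ψ h)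
            (B' v * Mv v (ξ h) ^ 2)) →
      (∀ h < 2 * n, Mv v (ξ h) ^ (2 * 4 ^ e (h / 2)) * Mv v (ξ (2 * n + h % 2)) ^ 2 ≤
        B'' v ^ (4 ^ e (h / 2)) * max (v (lawV (mapW K W) n e (fun _ => false) ξ ψ h).1)
          (v (lawV (mapW K W) n e (fun _ => false) ξ ψ h).2) * Mv v (ω h)) →
      (∀ lam : ℕ → Bool, MvPowerSeries.coeff α (Paux (mapW _ W) n n n e
        (fun α => algebraMap K (MvPowerSeries (Fin (2 * n + 2)) K) (c α)) lam X Ψ) =
        (∏ h ∈ Finset.range (2 * n), if lam h then ω h ^ n else 1) * δ) →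
      v δ ≤ s * Bt v ^ (sq n e) *
        (∏ h ∈ Finset.range (2 * n), (max (v (lawV (mapW K W) n e (fun _ => false) ξ ψ h).1)
          (v (lawV (mapW K W) n e (fun _ => false) ξ ψ h).2)) ^ n * Mv v (ξ h) ^ (4 ^ e (h / 2))) /
        (∏ j ∈ Finset.range n, (min (Mv v (ξ (2 * j))) (Mv v (ξ (2 * j + 1)))) ^ (k0 * 4 ^ e j)) *
        (Mv v (ξ (2 * n)) * Mv v (ξ (2 * n + 1))) ^ n *
        ∏ i : Fin (2 * n + 2), (B' v * Mv v (ξ i.val) ^ 2) ^ (α i)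

end Pool.Agent.Helper42.SG
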