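import Pool.Agent.Helper42.SG.Defs

/-!
# Project SG, module B (section 3 of the paper): the elliptic curve

Every goal is independent. `Pool.Agent.Helper29.BL` (files `ADD.lean` (`add`), `DBL`, `TRI`
(`Pool.Agent.Helper55.BL.tri_of`), `LOC`, `PS.lean`, `NOR.lean`, `Pool/Agent/Helper12/RR/Loc.lean`) and Mathlib's
`Mathlib/AlgebraicGeometry/EllipticCurve/Affine/AddSubMap*` (`addSubMapCoeff_condition`) can be used.
-/

set_option autoImplicit false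

open MvPolynomial

namespace Pool.Agent.Helper42.SG

open WeierstrassCurve Height
open Pool.Agent.Helper29.BL Pool.Agent.Helper92.Ru

/-- RPOL (polynomial identities, `ring`/induction): `B(A(t,z), B(t,z)) = C(t,z)^2 B(t,z)`, hence
`R_e(x)^2 B(x) = B(Φ_e, Ψ_e)`; and `L^0_1 L^1_2 = L^0_2 L^1_1` whenever `η^2 = B(x) B(c)`
(`T^2 - 4US = B(t,z) B(c)`; `(ηR)^2 = B(x) B(c) R^2`). For the curves `W` over commutative rings
use `b_relation : 4 b₈ = b₂ b₆ - b₄²`; to avoid dividing by `4` expand the `b_i` in the `a_i`. -/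
def RPOL : Prop :=
  ∀ (R : Type) [CommRing R] (W : WeierstrassCurve R),
    (∀ t z : R, Bh W (Ah W t z) (Bh W t z) = Ch W t z ^ 2 * Bh W t z) ∧
    (∀ (e : ℕ) (x : R), Rr W e x ^ 2 * Bf W x = Bh W (Ph W e x).1 (Ph W e x).2) ∧
    (∀ (e : ℕ) (x c η : R), η ^ 2 = Bf W x * Bf W c →
      (law W e false x c η).1 * (law W e true x c η).2 =
        (law W e false x c η).2 * (law W e true x c η).1)

/-- EDUP (3.1). Induction on `e` with the duplication formulas `x(2P) = A(x)/B(x)`, `B(x) = ψ²`,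
`ψ(2P) B(x)^2 = ψ(P) C(x, 1)`; `2P = 0 ↔ ψ(P) = 0`; `A`, `B` have no common zero (resultant: a power of
`Δ`; see `Mathlib/NumberTheory/Height/EllipticCurve` / `AddSubMap` files or `Helper29.BL`). -/
def EDUP : Prop :=
  ∀ (F : Type) [Field F] [DecidableEq F] (W : Affine F) [W.IsElliptic] (P : W.Point) (e : ℕ),
    P ≠ 0 →
    ((Ph W e (xc P)).1 ≠ 0 ∨ (Ph W e (xc P)).2 ≠ 0) ∧
    ((Ph W e (xc P)).2 = 0 ↔ (2 ^ e) • P = 0) ∧
    ((2 ^ e) • P ≠ 0 → (Ph W e (xc P)).1 = xc ((2 ^ e) • P) * (Ph W e (xc P)).2) ∧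
    ps ((2 ^ e) • P) * (Ph W e (xc P)).2 ^ 2 = ps P * Rr W e (xc P)

/-- ELAW (3.2). From EDUP (may be assumed) and the addition formulas: for `P₁ = 2^e P ≠ 0`, `±Q`:
`2 U x(P₁ + Q) = T - ψ(P₁) ψ(Q)`, `2 U x(P₁ - Q) = T + ψ(P₁) ψ(Q)` (`U = (x₁ - c)^2`..), and
`T^2 - 4 U S = B(x₁) B(c)`; homogenise by `z^2`. Separate cases: `2^e P = 0` (`L^0 = (2t^2, 2t^2 c)`,
`L^1 = (2 t^2 c, 2 t^2 c^2)`, `t ≠ 0`); `2^e P = Q` (`L^0 = (0, 2B(c)z^2)`, `L^1 = (0, 2A(c)z^2)`, `2Q ≠ 0`). -/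
def ELAW : Prop :=
  ∀ (F : Type) [Field F] [DecidableEq F] (W : Affine F) [W.IsElliptic] (P Q : W.Point) (e : ℕ),
    (2 : F) ≠ 0 → P ≠ 0 → Q ≠ 0 → (2 ^ e) • P + Q ≠ 0 →
    ((law W e false (xc P) (xc Q) (ps P * ps Q)).1 ≠ 0 ∨
      (law W e false (xc P) (xc Q) (ps P * ps Q)).2 ≠ 0) ∧
    ((2 ^ e) • P - Q ≠ 0 → (law W e false (xc P) (xc Q) (ps P * ps Q)).1 ≠ 0 ∧
      (law W e false (xc P) (xc Q) (ps P * ps Q)).2 =
        xc ((2 ^ e) • P - Q) * (law W e false (xc P) (xc Q) (ps P * ps Q)).1) ∧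
    ((2 ^ e) • P - Q = 0 → (law W e false (xc P) (xc Q) (ps P * ps Q)).1 = 0) ∧
    (law W e true (xc P) (xc Q) (ps P * ps Q)).1 =
      xc ((2 ^ e) • P + Q) * (law W e false (xc P) (xc Q) (ps P * ps Q)).1 ∧
    (law W e true (xc P) (xc Q) (ps P * ps Q)).2 =
      xc ((2 ^ e) • P + Q) * (law W e false (xc P) (xc Q) (ps P * ps Q)).2

/-- EPHI: growth of `(Φ_e, Ψ_e)`: `M_v(x)^(4^e) ≤ B_v^(4^e) max(|Φ_e|, |Ψ_e|)`. By induction from
`max(|t|,|z|)^4 ≤ B'_v max(|A(t,z)|, |B(t,z)|)` (resultant identities with cofactors divided by a power of `Δ`;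
`B_v = B'_v`, exponent `1 + 4 + .. + 4^(e-1) ≤ 4^e`). `B'_v = cst v C * bet W v ^ k * Mv v (W.Δ)⁻¹ ^ k'`,
`PlC` from the lemmas of `PS.lean`. -/
def EPHI : Prop :=
  ∀ (K : Type) [Field K] [NumberField K] (W : Affine K) [W.IsElliptic],
    ∃ B : AbsoluteValue K ℝ → ℝ, PlC B ∧ ∀ (v : AbsoluteValue K ℝ) (e : ℕ) (x : K),
      Mv v x ^ (4 ^ e) ≤ B v ^ (4 ^ e) * max (v (Ph W e x).1) (v (Ph W e x).2)

/-- EUTS: `max(|t|,|z|)^2 M_v(c)^2 ≤ B_v max(|U|,|T|,|S|)` (`addSubMapCoeff_condition` in Mathlib, or the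
identities of `Helper29.BL`). -/
def EUTS : Prop :=
  ∀ (K : Type) [Field K] [NumberField K] (W : Affine K) [W.IsElliptic],
    ∃ B : AbsoluteValue K ℝ → ℝ, PlC B ∧ ∀ (v : AbsoluteValue K ℝ) (c t z : K),
      max (v t) (v z) ^ 2 * Mv v c ^ 2 ≤ B v * max (v (Uh c t z)) (max (v (Th W c t z)) (v (Sh W c t z)))

/-- ELOC (3.3). From ELAW, EPHI, EUTS (may be assumed): with `λ = L^0_1` (resp. `L^0_2` if `2^e P = Q`)
`(2U, 2T, 2S) = λ (1, x(w) + x(w+), x(w) x(w+))` (resp. `λ (0, 1, x(w+))`), and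
`max|L^0| = |λ| M_v(x(w))`; the constant contains `Mv v (2⁻¹)`. -/
def ELOC : Prop :=
  ∀ (K : Type) [Field K] [NumberField K] [DecidableEq K] (W : Affine K) [W.IsElliptic],
    ∃ B : AbsoluteValue K ℝ → ℝ, PlC B ∧ ∀ (v : AbsoluteValue K ℝ) (P Q : W.Point) (e : ℕ),
      P ≠ 0 → Q ≠ 0 → (2 ^ e) • P + Q ≠ 0 →
      Mv v (xc P) ^ (2 * 4 ^ e) * Mv v (xc Q) ^ 2 ≤ B v ^ (4 ^ e) *
        max (v (law W e false (xc P) (xc Q) (ps P * ps Q)).1)
          (v (law W e false (xc P) (xc Q) (ps P * ps Q)).2) *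
        Mv v (xc ((2 ^ e) • P + Q))

/-- EUP (3.5): `|ψ(P)|_v ≤ B_v M_v(x(P))^2` (`ψ^2 = B(x)`), and `ψ^2 = B(x)`. -/
def EUP : Prop :=
  ∀ (K : Type) [Field K] [NumberField K] (W : Affine K),
    (∀ P : W.Point, P ≠ 0 → ps P ^ 2 = Bf W (xc P)) ∧
    ∃ B : AbsoluteValue K ℝ → ℝ, PlC B ∧ ∀ (v : AbsoluteValue K ℝ) (P : W.Point),
      v (ps P) ≤ B v * Mv v (xc P) ^ 2

/-- ECOEF (3.4): the coefficients of the laws. For every exponent `e`, law `l`, `M`, `m ≤ M` there is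
an array `G μ i g`, `μ ∈ {0, 1}`, `i + 2μ ≤ 2·4^e M`, `g + 2μ ≤ 2M`.
Proof. First `M = 1`: `L^l_1`, `L^l_2` are of the form `p(x, c) + η q(x)` with `p`, `q` polynomials with
coefficients polynomials in `b₂, b₄, b₆, b₈` over `ℤ`; `x`-degree of `p` `≤ 2·4^e`, `c`-degree `≤ 2`;
`q = ± R_e(x)` of degree `≤ 2(4^e - 1)`, `c`-degree `0`; absolute values of the coefficients of `Φ_e`, `Ψ_e`, `R_e`
`≤ B_v^(4^e)` (Gauss norm/sum of the absolute values is submultiplicative; `A`, `B` of degree `4`,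
`C` of degree `6`: `N_(e+1) ≤ c_v N_e^4`; so `N_e ≤ c_v^(4^e)`). Products of `M` such factors:
`(p + η q)(p' + η q') = (p p' + B(x)B(c) q q') + η (p q' + p' q)`: degree in `x` of `B(x)B(c) q q'`:
`3 + deg q + deg q'`, where for a product of `k` factors the odd part has degree `≤ 2·4^e k - 2`, and
`3 + (2·4^e k - 2) + (2·4^e k' - 2) ≤ 2·4^e (k + k')` ok; `c`: odd part of degree `≤ 2k - 2`, ok.
It is best to work with a submultiplicative norm on `K[x][c]` at each `v` and to prove the claim by induction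
on the number of factors. `D` clears the denominators of `b₂, b₄, b₆, b₈` (a sufficiently large power of a
common denominator: the degree of the coefficients in the `b`'s is `≤ κ 4^e M`). -/
def ECOEF : Prop :=
  ∀ (K : Type) [Field K] [NumberField K] (W : Affine K),
    ∃ (B : AbsoluteValue K ℝ → ℝ) (D : ℕ), PlC B ∧ 0 < D ∧
      ∀ (e M m : ℕ) (l : Bool), m ≤ M → ∃ G : Fin 2 → ℕ → ℕ → K,
        (∀ μ i g, G μ i g ≠ 0 → i + 2 * μ.val ≤ 2 * 4 ^ e * M ∧ g + 2 * μ.val ≤ 2 * M) ∧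
        (∀ v μ i g, v (G μ i g) ≤ B v ^ (4 ^ e * M)) ∧
        (∀ μ i g, IsIntegral ℤ ((D : K) ^ (4 ^ e * M) * G μ i g)) ∧
        ∀ (A : Type) [CommRing A] [Algebra K A] (x c η : A),
          η ^ 2 = Bf (W.map (algebraMap K A)) x * Bf (W.map (algebraMap K A)) c →
          (law (W.map (algebraMap K A)) e l x c η).1 ^ (M - m) *
            (law (W.map (algebraMap K A)) e l x c η).2 ^ m =
          ∑ μ : Fin 2, ∑ i ∈ Finset.range (2 * 4 ^ e * M + 1), ∑ g ∈ Finset.range (2 * M + 1),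
            algebraMap K A (G μ i g) * (η ^ μ.val * x ^ i * c ^ g)

end Pool.Agent.Helper42.SG
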