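import Pool.Agent.Helper42.SG.GoalsP

/-!
# Project SG: general forms of KEY, LAWC, LOCE which serve part 1 and part 2

Part 1: `M = δ = n`, `F = 0`, `σ = Fin (2 n + 2)`, `(X, Ψ)` the Taylor expansion. Part 2: `n = 1`, `δ = 1`, `F = f_0`,
`σ = Fin 2`, `X_2, X_3, Ψ_2, Ψ_3` constants (the point `x_0`), `X_0, X_1, Ψ_0, Ψ_1` Taylor expansions at `z`.
-/

set_option autoImplicit false

open MvPolynomial

namespace Pool.Agent.Helper42.SG

open WeierstrassCurve Height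
open Pool.Agent.Helper29.BL Pool.Agent.Helper92.Ru

noncomputable section

/-- the bound in the key inequality, general `M`, `δ` -/
def keyBG (n M δ k0 : ℕ) (e : ℕ → ℕ) (a : ℕ → ℝ) : ℝ :=
  (∏ j ∈ Finset.range n, ((a (2 * j) * a (2 * j + 1)) ^ (2 * 4 ^ e j * M + 4 ^ e j) *
    (a (2 * n) * a (2 * n + 1)) ^ (2 * M) /
      (min (a (2 * j)) (a (2 * j + 1))) ^ (k0 * 4 ^ e j))) *
    (a (2 * n) * a (2 * n + 1)) ^ δ

/-- the key inequality in every norm frame, for `x_0` on the curve `F = 0` (`F = 0` in part 1) -/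
def KEYG {K : Type} [Field K] (W : ℕ → Affine K) (n M δ k0 : ℕ) (F : MvPolynomial (Fin 2) K)
    (e : ℕ → ℕ) (c : Idx n M δ e → K) (B : AbsoluteValue K ℝ → ℝ) : Prop :=
  ∀ (v : AbsoluteValue K ℝ) (A : Type) [CommRing A] [Algebra K A] (N : A → ℝ → Prop), NFr v N →
    ∀ (X Ψ : ℕ → A) (a : ℕ → ℝ) (s b : ℝ), OnW W n X Ψ → (∀ h < 2 * n + 2, 1 ≤ a h) → 1 ≤ b →
      (∀ h < 2 * n + 2, N (X h) (a h)) → (∀ h < 2 * n + 2, N (Ψ h) (b * a h ^ 2)) →
      (∀ α, v (c α) ≤ s) → aeval (fun i : Fin 2 => X (2 * n + i.val)) F = 0 →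
      ∀ lam : ℕ → Bool,
      N (Paux (mapW A W) n M δ e (fun α => algebraMap K A (c α)) lam X Ψ)
        (s * b ^ (4 * n) * B v ^ sq n e * keyBG n M δ k0 e a)

theorem KEY.toG {K : Type} [Field K] {W : ℕ → Affine K} {n k0 : ℕ} {e : ℕ → ℕ}
    {c : Idx n n n e → K} {B : AbsoluteValue K ℝ → ℝ} (h : KEY W n k0 e c B) :
    KEYG W n n n k0 0 e c B := fun v A _ _ N hN X Ψ a s b h1 h2 h3 h4 h5 h6 _ lam =>
  h v A N hN X Ψ a s b h1 h2 h3 h4 h5 h6 lam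

/-- LAWCG: general form of LAWC (same proof): any finite number of series variables, general `M`, `δ`,
`(X, Ψ)` series on the curves with constant terms `(ξ, ψ)`. -/
def LAWCG : Prop :=
  ∀ (K : Type) [Field K] [NumberField K] (W : ℕ → Affine K) (n M δ : ℕ) (e : ℕ → ℕ)
    (c : Idx n M δ e → K) (ξ ψ ω : ℕ → K) (σ : Type) [Fintype σ] (X Ψ : ℕ → MvPowerSeries σ K)
    (d : σ → ℕ) (α : σ →₀ ℕ) (lam : ℕ → Bool),
    OnW W n X Ψ → (∀ h < 2 * n + 2, MvPowerSeries.constantCoeff (X h) = ξ h ∧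
      MvPowerSeries.constantCoeff (Ψ h) = ψ h) → (∀ i, 1 ≤ d i) →
    (∀ h < 2 * n, (lawV (mapW K W) n e (fun _ => false) ξ ψ h).1 ≠ 0 ∨
      (lawV (mapW K W) n e (fun _ => false) ξ ψ h).2 ≠ 0) →
    (∀ h < 2 * n, (lawV (mapW K W) n e (fun _ => true) ξ ψ h).1 =
        ω h * (lawV (mapW K W) n e (fun _ => false) ξ ψ h).1 ∧
      (lawV (mapW K W) n e (fun _ => true) ξ ψ h).2 =
        ω h * (lawV (mapW K W) n e (fun _ => false) ξ ψ h).2) →
    (∀ β, wt d β < wt d α → MvPowerSeries.coeff β (Paux (mapW _ W) n M δ e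
      (fun α => algebraMap K (MvPowerSeries σ K) (c α)) (fun _ => false) X Ψ) = 0) →
    MvPowerSeries.coeff α (Paux (mapW _ W) n M δ e
      (fun α => algebraMap K (MvPowerSeries σ K) (c α)) lam X Ψ) =
    (∏ h ∈ Finset.range (2 * n), if lam h then ω h ^ M else 1) *
      MvPowerSeries.coeff α (Paux (mapW _ W) n M δ e
        (fun α => algebraMap K (MvPowerSeries σ K) (c α)) (fun _ => false) X Ψ)

/-- LOCEG: general form of LOCE (same proof), `r i > 0` the radii of the series variables. -/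
def LOCEG : Prop :=
  ∀ (K : Type) [Field K] [NumberField K] (W : ℕ → Affine K) (n M δ k0 : ℕ)
    (B B' B'' : AbsoluteValue K ℝ → ℝ), 1 ≤ n → PlC B → PlC B' → PlC B'' →
    ∃ Bt : AbsoluteValue K ℝ → ℝ, PlC Bt ∧
    ∀ (F : MvPolynomial (Fin 2) K) (e : ℕ → ℕ) (c : Idx n M δ e → K) (ξ ψ ω : ℕ → K)
      (σ : Type) [Fintype σ] (X Ψ : ℕ → MvPowerSeries σ K) (α : σ →₀ ℕ) (dl : K)
      (v : AbsoluteValue K ℝ) (r : σ → ℝ) (s : ℝ),
      KEYG W n M δ k0 F e c B → OnW W n X Ψ → (∀ α, v (c α) ≤ s) → (∀ i, 0 < r i) →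
      aeval (fun i : Fin 2 => X (2 * n + i.val)) F = 0 →
      (∀ h < 2 * n + 2, NPS v r (X h) (B' v * Mv v (ξ h)) ∧
          NPS v r (Ψ h) (B' v * Mv v (ξ h) ^ 2)) →
      (∀ h < 2 * n, Mv v (ξ h) ^ (2 * 4 ^ e (h / 2)) * Mv v (ξ (2 * n + h % 2)) ^ 2 ≤
        B'' v ^ (4 ^ e (h / 2)) * max (v (lawV (mapW K W) n e (fun _ => false) ξ ψ h).1)
          (v (lawV (mapW K W) n e (fun _ => false) ξ ψ h).2) * Mv v (ω h)) →
      (∀ lam : ℕ → Bool, MvPowerSeries.coeff α (Paux (mapW _ W) n M δ e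
        (fun α => algebraMap K (MvPowerSeries σ K) (c α)) lam X Ψ) =
        (∏ h ∈ Finset.range (2 * n), if lam h then ω h ^ M else 1) * dl) →
      v dl ≤ s * Bt v ^ (sq n e) *
        (∏ h ∈ Finset.range (2 * n), (max (v (lawV (mapW K W) n e (fun _ => false) ξ ψ h).1)
          (v (lawV (mapW K W) n e (fun _ => false) ξ ψ h).2)) ^ M * Mv v (ξ h) ^ (4 ^ e (h / 2))) /
        (∏ j ∈ Finset.range n, (min (Mv v (ξ (2 * j))) (Mv v (ξ (2 * j + 1)))) ^ (k0 * 4 ^ e j)) *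
        (Mv v (ξ (2 * n)) * Mv v (ξ (2 * n + 1))) ^ δ *
        ∏ i : σ, (1 / r i) ^ (α i)

/-- AUXC (part 2): the auxiliary function, `n = 1`, `δ = 1`. Quotients as unknowns, see the mails of helper11
and helper42. `f_0` irreducible (or just `≠ 0`), degrees `≤ D`; the height bound contains `log PH f_0`. -/
def AUXC : Prop :=
  ∀ (K : Type) [Field K] [NumberField K] (W : ℕ → Affine K) (k0 D : ℕ), ∃ (M : ℕ) (C : ℝ)
    (B : AbsoluteValue K ℝ → ℝ), 1 ≤ M ∧ PlC B ∧ 0 ≤ C ∧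
    ∀ (F : MvPolynomial (Fin 2) K) (e : ℕ → ℕ), F ≠ 0 → (∀ i, F.degreeOf i ≤ D) →
      ∃ c : Idx 1 M 1 e → K, c ≠ 0 ∧ (∀ α, IsIntegral ℤ (c α)) ∧
        (∀ α, NumberField.house (c α) ≤ Real.exp (C * (4 ^ e 0 + Real.log (PH F)))) ∧
        KEYG W 1 M 1 k0 F e c B

end

end Pool.Agent.Helper42.SG
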