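import Pool.Agent.Helper42.SG.GoalsG
import Pool.Agent.Helper29.BL.QSN
import Pool.Agent.Helper29.BL.CAN
import Pool.Agent.Helper29.BL.PS

/-!
# Project SG: the final assembly (`GCDT` from `SEQ`, `PONE`, `PTWO`, `FINH`)
-/

set_option autoImplicit false

open MvPolynomial

namespace Pool.Agent.Helper42.SG

open WeierstrassCurve Height
open Pool.Agent.Helper29.BL Pool.Agent.Helper92.Ru

noncomputable section

theorem canH_mono {K : Type} [Field K] [AdmissibleAbsValues K] [DecidableEq K] {W : Affine K}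
    {H : W.Point → ℝ} {c c' : ℝ} (h : CanH W H c) (hc : c ≤ c') : CanH W H c' :=
  ⟨h.quad, fun P => (h.near P).trans hc⟩

theorem isQuad_nrm {K : Type} [Field K] [DecidableEq K] {W₁ W₂ : Affine K} {H₁ : W₁.Point → ℝ}
    {H₂ : W₂.Point → ℝ} (h₁ : IsQuad H₁) (h₂ : IsQuad H₂) : IsQuad (nrm H₁ H₂) := by
  refine ⟨fun z => add_nonneg (h₁.nonneg _) (h₂.nonneg _), fun x y => ?_⟩
  have e1 := h₁.par x.1 y.1
  have e2 := h₂.par x.2 y.2
  simp only [nrm, Prod.fst_add, Prod.snd_add, Prod.fst_sub, Prod.snd_sub]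
  linarith

theorem LowE.mono {K : Type} [Field K] [NumberField K] {W₁ W₂ : Affine K} {D : ℕ} {A A' : ℝ}
    {z : W₁.Point × W₂.Point} (h : LowE D A z) (hA : A ≤ A') : LowE D A' z := by
  obtain ⟨f, h1, h2, h3, h4⟩ := h
  exact ⟨f, h1, h2, h3, h4.trans hA⟩

/-- the properties of the seminorm `√H` -/
theorem quad_sn (hq : QSN) {G : Type} [AddCommGroup G] {H : G → ℝ} (h : IsQuad H) :
    (∀ (k : ℕ) (x : G), √(H ((2 ^ k) • x)) = 2 ^ k * √(H x)) ∧
    (∀ x y, √(H (x + y)) ≤ √(H x) + √(H y)) ∧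
    (∀ x y, √(H (x - y)) = √(H (y - x))) := by
  obtain ⟨h0, hneg, hmul, htri⟩ := hq G H h
  refine ⟨fun k x => ?_, htri, fun x y => ?_⟩
  · have e := hmul (2 ^ k : ℤ) x
    have e' : ((2 ^ k : ℤ)) • x = (2 ^ k : ℕ) • x := by
      rw [← natCast_zsmul]
      push_cast
      rfl
    rw [e'] at e
    rw [e]
    push_cast
    rw [Real.sqrt_mul (by positivity), Real.sqrt_sq (by positivity)]
  · rw [← neg_sub, hneg]

/-- the elementary part: from `2^(E_0) x_0`, `2^(E_j) x_j` near `x_n` to `2^(E_0 - E_j) x_0` near `x_j` -/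
theorem near_step {G : Type} [AddCommGroup G] (N : G → ℝ) (hN0 : ∀ x, 0 ≤ N x)
    (hmul : ∀ (k : ℕ) (x : G), N ((2 ^ k) • x) = 2 ^ k * N x)
    (htri : ∀ x y, N (x + y) ≤ N x + N y) (hsym : ∀ x y, N (x - y) = N (y - x))
    {x0 xj xn : G} {E0 Ej : ℕ} {θ : ℝ} (hθ0 : 0 < θ) (hθ : θ ≤ 1 / 4) (hn : 0 < N xn)
    (h0 : N ((2 ^ E0) • x0 - xn) ≤ θ * N xn) (hj : N ((2 ^ Ej) • xj - xn) ≤ θ * N xn)
    (h4 : 4 * N x0 ≤ N xj) :
    Ej ≤ E0 ∧ N ((2 ^ (E0 - Ej)) • x0 - xj) ≤ 4 * θ * N xj := by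
  have a1 : 2 ^ Ej * N xj ≤ (1 + θ) * N xn := by
    have := htri ((2 ^ Ej) • xj - xn) xn
    rw [sub_add_cancel, hmul] at this
    linarith
  have a2 : (1 - θ) * N xn ≤ 2 ^ Ej * N xj := by
    have := htri (xn - (2 ^ Ej) • xj) ((2 ^ Ej) • xj)
    rw [sub_add_cancel, hmul, hsym] at this
    linarith
  have a3 : (1 - θ) * N xn ≤ 2 ^ E0 * N x0 := by
    have := htri (xn - (2 ^ E0) • x0) ((2 ^ E0) • x0)
    rw [sub_add_cancel, hmul, hsym] at this
    linarith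
  have hle : Ej ≤ E0 := by
    by_contra hlt
    have hlt' : E0 < Ej := not_le.1 hlt
    have hp : (2 : ℝ) ^ E0 ≤ 2 ^ Ej := pow_le_pow_right₀ (by norm_num) hlt'.le
    have h5 : (2 : ℝ) ^ E0 * (4 * N x0) ≤ 2 ^ Ej * N xj :=
      mul_le_mul hp h4 (by have := hN0 x0; positivity) (by positivity)
    nlinarith
  refine ⟨hle, ?_⟩
  have b1 : N ((2 ^ E0) • x0 - (2 ^ Ej) • xj) ≤ 2 * θ * N xn := by
    have := htri ((2 ^ E0) • x0 - xn) (xn - (2 ^ Ej) • xj)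
    rw [sub_add_sub_cancel, hsym xn] at this
    linarith
  have b2 : (2 ^ E0) • x0 - (2 ^ Ej) • xj = (2 ^ Ej) • ((2 ^ (E0 - Ej)) • x0 - xj) := by
    rw [smul_sub, smul_smul, ← pow_add, Nat.add_sub_cancel' hle]
  rw [b2, hmul] at b1
  have hpos : (0 : ℝ) < 2 ^ Ej := by positivity
  have b3 : N xn ≤ 4 / 3 * (2 ^ Ej * N xj) := by nlinarith
  have b4 : 2 ^ Ej * N ((2 ^ (E0 - Ej)) • x0 - xj) ≤ 2 ^ Ej * (4 * θ * N xj) := by
    have h6 : 2 * θ * N xn ≤ 2 * θ * (4 / 3 * (2 ^ Ej * N xj)) :=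
      mul_le_mul_of_nonneg_left b3 (by positivity)
    have h7 : 0 ≤ θ * (2 ^ Ej * N xj) := by have := hN0 xj; positivity
    nlinarith
  exact le_of_mul_le_mul_left b4 hpos

theorem gcdt (hcan : CAN) (hq : QSN) (hS : SEQ) (hP1 : PONE) (hP2 : PTWO) (hF : FINH) : GCDT := by
  intro K _ _ _ W₁ W₂ _ _ Γ₁ Γ₂ hΓ₁ hΓ₂ ε hε
  obtain ⟨H₁, c₁, hH₁'⟩ := hcan K W₁
  obtain ⟨H₂, c₂, hH₂'⟩ := hcan K W₂
  set c₀ := max c₁ c₂ with hc₀
  have hH₁ : CanH W₁ H₁ c₀ := canH_mono hH₁' (le_max_left _ _)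
  have hH₂ : CanH W₂ H₂ c₀ := canH_mono hH₂' (le_max_right _ _)
  have hc0 : 0 ≤ c₀ := (abs_nonneg _).trans (hH₁.near 0)
  obtain ⟨n, D, CI, θ1, K1, hθ1, h1⟩ := hP1 K W₁ W₂ H₁ H₂ c₀ ε hH₁ hH₂ hε
  obtain ⟨D', C', θ2, K2, hθ2, h2⟩ := hP2 K W₁ W₂ H₁ H₂ c₀ ε CI D hH₁ hH₂ hε
  obtain ⟨Z1, hZ1, hf1⟩ := hF K D CI
  obtain ⟨Z2, hZ2, hf2⟩ := hF K D' C'
  have hQ : IsQuad (nrm H₁ H₂) := isQuad_nrm hH₁.quad hH₂.quad
  obtain ⟨hsm, hst, hss⟩ := quad_sn hq hQ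
  set θ := min θ1 (min (θ2 / 4) (1 / 4)) with hθ
  have hθ0 : 0 < θ := by positivity
  have hθa : θ ≤ θ1 := min_le_left _ _
  have hθb : θ ≤ θ2 / 4 := (min_le_right _ _).trans (min_le_left _ _)
  have hθc : θ ≤ 1 / 4 := (min_le_right _ _).trans (min_le_right _ _)
  set K0 := max K1 (max K2 16) with hK0
  have hKa : K1 ≤ K0 := le_max_left _ _
  have hKb : K2 ≤ K0 := (le_max_left _ _).trans (le_max_right _ _)
  have hKc : 16 ≤ K0 := (le_max_right _ _).trans (le_max_right _ _)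
  have low0 : ∀ (D : ℕ) (A : ℝ) (Z : MvPolynomial (Fin 2) K)
      (_ : ∀ f : MvPolynomial (Fin 2) K, Irreducible f → (∀ e, f.degreeOf e ≤ D) →
        Real.log (PH f) ≤ A → ∃ g, Z = f * g) (z : W₁.Point × W₂.Point), LowE D A z →
      eval (fun i : Fin 2 => if i = 0 then xc z.1 else xc z.2) Z = 0 := by
    intro D A Z hZ z hz
    obtain ⟨f, hf, hfd, hfz, hfh⟩ := hz
    obtain ⟨g, rfl⟩ := hZ f hf hfd hfh
    rw [map_mul, hfz, zero_mul]
  obtain ⟨R, hR⟩ := hS _ (Γ₁.prod Γ₂) (hΓ₁.prod hΓ₂) (nrm H₁ H₂) hQ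
    (fun z => ε * nrm H₁ H₂ z ≤ gg z ∧
      eval (fun i : Fin 2 => if i = 0 then xc z.1 else xc z.2) (Z1 * Z2) ≠ 0) n θ K0 hθ0 (by
    intro x e hx0 hxs hxe hex
    have hxn : ∀ j, 0 ≤ nrm H₁ H₂ (x j) := fun j => hQ.nonneg _
    have hstep : ∀ j < n, nrm H₁ H₂ (x j) ≤ nrm H₁ H₂ (x (j + 1)) := fun j hj => by
      have := hxs j hj
      nlinarith [hxn j]
    have hchain : ∀ j, j ≤ n → nrm H₁ H₂ (x 0) ≤ nrm H₁ H₂ (x j) := by
      intro j
      induction j with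
      | zero => intro _; exact le_rfl
      | succ j ih => intro hj; exact (ih (by omega)).trans (hstep j (by omega))
    have hchain' : ∀ j, 0 < j → j ≤ n → K0 * nrm H₁ H₂ (x 0) ≤ nrm H₁ H₂ (x j) := by
      intro j hj0 hj
      obtain ⟨i, rfl⟩ := Nat.exists_eq_succ_of_ne_zero hj0.ne'
      have e1 := hxs i (by omega)
      have e2 := hchain i (by omega)
      have : K0 * nrm H₁ H₂ (x 0) ≤ K0 * nrm H₁ H₂ (x i) :=
        mul_le_mul_of_nonneg_left e2 (by linarith)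
      exact this.trans e1
    have hx0pos : 0 < nrm H₁ H₂ (x 0) := by linarith
    have hnpos : 0 < nrm H₁ H₂ (x n) := lt_of_lt_of_le hx0pos (hchain n le_rfl)
    obtain ⟨j, hj, hlow⟩ := h1 x e (hKa.trans hx0)
      (fun j hj => (mul_le_mul_of_nonneg_right hKa (hxn j)).trans (hxs j hj))
      (fun j hj => (hxe j hj).trans (mul_le_mul_of_nonneg_right
        (pow_le_pow_left₀ hθ0.le hθa 2) hnpos.le)) (fun j hj => (hex j hj).1)
    rcases Nat.eq_zero_or_pos j with rfl | hj0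
    · rw [div_self hx0pos.ne', mul_one] at hlow
      refine (hex 0 (Nat.zero_le _)).2 ?_
      rw [map_mul, low0 D CI Z1 hf1 _ hlow, zero_mul]
    · -- part 2
      let N : W₁.Point × W₂.Point → ℝ := fun z => √(nrm H₁ H₂ z)
      have hsq : ∀ z w : W₁.Point × W₂.Point, ∀ t : ℝ, 0 ≤ t →
          nrm H₁ H₂ z ≤ t ^ 2 * nrm H₁ H₂ w → N z ≤ t * N w := by
        intro z w t ht h
        have := Real.sqrt_le_sqrt h
        rw [Real.sqrt_mul (by positivity), Real.sqrt_sq ht] at this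
        exact this
      let E : ℕ → ℕ := fun j => if j = n then 0 else e j
      have hE : ∀ j ≤ n, N ((2 ^ (E j)) • x j - x n) ≤ θ * N (x n) := by
        intro j hj
        by_cases hjn : j = n
        · subst hjn
          have h0 : nrm H₁ H₂ (0 : W₁.Point × W₂.Point) = 0 := (hq _ _ hQ).1
          simp only [E, if_true, pow_zero, one_smul, sub_self, N, h0, Real.sqrt_zero]
          positivity
        · have := hxe j (lt_of_le_of_ne hj hjn)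
          simp only [E, if_neg hjn]
          exact hsq _ _ _ hθ0.le this
      have h4 : 4 * N (x 0) ≤ N (x j) := by
        have h5 : nrm H₁ H₂ (x 0) ≤ (1 / 4) ^ 2 * nrm H₁ H₂ (x j) := by
          have := hchain' j hj0 hj
          nlinarith
        have := hsq _ _ (1 / 4) (by norm_num) h5
        linarith
      have hNn : 0 < N (x n) := Real.sqrt_pos.2 hnpos
      obtain ⟨hle, hnear⟩ := near_step N (fun z => Real.sqrt_nonneg _) hsm hst hss hθ0 hθc hNn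
        (hE 0 (Nat.zero_le _)) (hE j hj) h4
      have hnear' : nrm H₁ H₂ ((2 ^ (E 0 - E j)) • x 0 - x j) ≤ θ2 ^ 2 * nrm H₁ H₂ (x j) := by
        have h6 : N ((2 ^ (E 0 - E j)) • x 0 - x j) ≤ θ2 * N (x j) := by
          refine hnear.trans (mul_le_mul_of_nonneg_right ?_ (Real.sqrt_nonneg _))
          linarith
        have h7 := pow_le_pow_left₀ (Real.sqrt_nonneg _) h6 2
        rw [mul_pow, Real.sq_sqrt (hQ.nonneg _), Real.sq_sqrt (hQ.nonneg _)] at h7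
        exact h7
      have hlow' := h2 (x 0) (x j) (E 0 - E j) (hKb.trans hx0)
        ((mul_le_mul_of_nonneg_right hKb hx0pos.le).trans (hchain' j hj0 hj)) hnear'
        (hex 0 (Nat.zero_le _)).1 (hex j hj).1 hlow
      refine (hex 0 (Nat.zero_le _)).2 ?_
      rw [map_mul, low0 D' C' Z2 hf2 _ hlow', mul_zero])
  refine ⟨Z1 * Z2, |R| + c₀ + 2 * ε * c₀, mul_ne_zero hZ1 hZ2, fun z hz1 hz2 hz => ?_⟩
  have hn1 := abs_le.1 (hH₁.near z.1)
  have hn2 := abs_le.1 (hH₂.near z.2)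
  have hg1 : gg z ≤ hx z.1 := gg_le_left z
  have hh0 : 0 ≤ hh z := hh_nonneg z
  have hq2 := hH₂.quad.nonneg z.2
  have hhz : hh z = hx z.1 + hx z.2 := rfl
  have hnz : nrm H₁ H₂ z = H₁ z.1 + H₂ z.2 := rfl
  by_cases hE : ε * nrm H₁ H₂ z ≤ gg z
  · have := hR z (AddSubgroup.mem_prod.2 ⟨hz1, hz2⟩) ⟨hE, hz⟩
    have hRR := le_abs_self R
    have e1 : 0 ≤ ε * hh z := by positivity
    have e2 : 0 ≤ 2 * ε * c₀ := by positivity
    linarith [hn1.1]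
  · rw [not_le] at hE
    have hRR := abs_nonneg R
    have e3 : ε * nrm H₁ H₂ z ≤ ε * (hh z + 2 * c₀) := by
      refine mul_le_mul_of_nonneg_left ?_ hε.le
      linarith [hn1.2, hn2.2]
    have e4 : ε * (hh z + 2 * c₀) = ε * hh z + 2 * ε * c₀ := by ring
    linarith

end

end Pool.Agent.Helper42.SG
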