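import Pool.Agent.Helper29.BL.Defs
import Pool.Agent.Helper92.Ru.DefsR

/-!
# Project SG (MP_a41896_nt): definitions

Silverman's gcd conjecture for two non-isogenous elliptic curves, all `K`-points.  The paper proof is
`MP_a41896_gcd_helper42.md` (team store), sections quoted below.
-/

set_option autoImplicit false

open MvPolynomial

namespace Pool.Agent.Helper42.SG

open WeierstrassCurve Height
open Pool.Agent.Helper29.BL Pool.Agent.Helper92.Ru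

noncomputable section

/-! ## Section 1: place constants, norm frames -/

section frames

variable {K : Type} [Field K]

/-- a place constant: `B_v ≥ 1`, `B_v = 1` for almost all nonarchimedean places -/
structure PlC [AdmissibleAbsValues K] (B : AbsoluteValue K ℝ → ℝ) : Prop where
  one_le : ∀ v, 1 ≤ B v
  fin : FS fun v => Real.log (B v)

/-- A norm frame: `N f T` means `norm of f ≤ T` for an element `f` of a commutative `K`-algebra. -/
structure NFr (v : AbsoluteValue K ℝ) {A : Type} [CommRing A] [Algebra K A]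
    (N : A → ℝ → Prop) : Prop where
  const : ∀ k : K, N (algebraMap K A k) (v k)
  mul : ∀ f g S T, N f S → N g T → N (f * g) (S * T)
  add : ∀ f g S T, N f S → N g T → N (f + g) (S + T)
  max : IsNonarchimedean v → ∀ f g S T, N f S → N g T → N (f + g) (max S T)
  mono : ∀ f S T, N f S → S ≤ T → N f T
  nonneg : ∀ f T, N f T → 0 ≤ T

/-- the weight `∏ r_i ^ α_i` of a monomial -/
def rpw {σ : Type} (r : σ → ℝ) (α : σ →₀ ℕ) : ℝ := α.prod fun i k => r i ^ k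

/-- the norm frame of power series with radii `r_i > 0` -/
def NPS (v : AbsoluteValue K ℝ) {σ : Type} (r : σ → ℝ) (f : MvPowerSeries σ K) (T : ℝ) : Prop :=
  0 ≤ T ∧ (IsNonarchimedean v → ∀ α, v (MvPowerSeries.coeff α f) * rpw r α ≤ T) ∧
    (¬ IsNonarchimedean v → ∀ S : Finset (σ →₀ ℕ),
      ∑ α ∈ S, v (MvPowerSeries.coeff α f) * rpw r α ≤ T)

end frames

/-! ## Section 3: the elliptic curve -/

section curve

/-- `ψ(P) = 2y + a₁x + a₃`; `0` at infinity -/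
def ps {F : Type} [Field F] {W : Affine F} : W.Point → F
  | .zero => 0
  | .some x y _ => 2 * y + W.a₁ * x + W.a₃

variable {R : Type} [CommRing R]

def Ah (W : WeierstrassCurve R) (t z : R) : R :=
  t ^ 4 - W.b₄ * t ^ 2 * z ^ 2 - 2 * W.b₆ * t * z ^ 3 - W.b₈ * z ^ 4

def Bh (W : WeierstrassCurve R) (t z : R) : R :=
  4 * t ^ 3 * z + W.b₂ * t ^ 2 * z ^ 2 + 2 * W.b₄ * t * z ^ 3 + W.b₆ * z ^ 4

def Ch (W : WeierstrassCurve R) (t z : R) : R :=
  2 * t ^ 6 + W.b₂ * t ^ 5 * z + 5 * W.b₄ * t ^ 4 * z ^ 2 + 10 * W.b₆ * t ^ 3 * z ^ 3 +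
    10 * W.b₈ * t ^ 2 * z ^ 4 + (W.b₂ * W.b₈ - W.b₄ * W.b₆) * t * z ^ 5 +
    (W.b₄ * W.b₈ - W.b₆ ^ 2) * z ^ 6

/-- `(Φ_e(x), Ψ_e(x))`, `x(2^e P) = Φ_e(x(P)) / Ψ_e(x(P))` -/
def Ph (W : WeierstrassCurve R) : ℕ → R → R × R
  | 0, x => (x, 1)
  | e + 1, x => (Ah W (Ph W e x).1 (Ph W e x).2, Bh W (Ph W e x).1 (Ph W e x).2)

/-- `R_e(x)`, `ψ(2^e P) Ψ_e(x(P))^2 = ψ(P) R_e(x(P))` -/
def Rr (W : WeierstrassCurve R) : ℕ → R → R
  | 0, _ => 1
  | e + 1, x => Rr W e x * Ch W (Ph W e x).1 (Ph W e x).2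

def Uh (c t z : R) : R := (t - c * z) ^ 2

def Th (W : WeierstrassCurve R) (c t z : R) : R :=
  2 * (t + c * z) * (t * c) + W.b₂ * (t * z * c) + W.b₄ * (t + c * z) * z + W.b₆ * z ^ 2

def Sh (W : WeierstrassCurve R) (c t z : R) : R :=
  (t * c) ^ 2 - W.b₄ * (t * z * c) - W.b₆ * (t + c * z) * z - W.b₈ * z ^ 2

/-- the two addition laws for `x(2^e P - Q)`: law `false` is `L^0`, law `true` is `L^1`;
`x = x(P)`, `c = x(Q)`, `η = ψ(P) ψ(Q)` -/
def law (W : WeierstrassCurve R) (e : ℕ) (l : Bool) (x c η : R) : R × R :=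
  if l then (Th W c (Ph W e x).1 (Ph W e x).2 - η * Rr W e x,
      2 * Sh W c (Ph W e x).1 (Ph W e x).2)
  else (2 * Uh c (Ph W e x).1 (Ph W e x).2, Th W c (Ph W e x).1 (Ph W e x).2 + η * Rr W e x)

end curve

/-! ## Section 4: the auxiliary function of part 1 -/

section aux

/-- The index set of the unknowns. Variables `h < 2n` belong to the points `x_1..x_n` (point `h / 2`,
factor `h % 2` of `E_1 × E_2`), variables `2n, 2n+1` to the point `x_0`. `q_h = 4 ^ e (h / 2)`,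
`(l_h, m_h)` with `l_h < q_h`, `m_h ≤ M`; `β_i < δ`. -/
abbrev Idx (n M δ : ℕ) (e : ℕ → ℕ) : Type :=
  (∀ h : Fin (2 * n), Fin (4 ^ e (h.val / 2)) × Fin (M + 1)) × (Fin 2 → Fin δ)

variable {A : Type} [CommRing A]

/-- the value of the law of the variable `h < 2n` -/
def lawV (W : ℕ → WeierstrassCurve A) (n : ℕ) (e : ℕ → ℕ) (lam : ℕ → Bool) (X Ψ : ℕ → A)
    (h : ℕ) : A × A :=
  law (W (h % 2)) (e (h / 2)) (lam h) (X h) (X (2 * n + h % 2)) (Ψ h * Ψ (2 * n + h % 2))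

/-- the function `P^λ` -/
def Paux (W : ℕ → WeierstrassCurve A) (n M δ : ℕ) (e : ℕ → ℕ) (c : Idx n M δ e → A)
    (lam : ℕ → Bool) (X Ψ : ℕ → A) : A :=
  ∑ α : Idx n M δ e, c α *
    (∏ h : Fin (2 * n), X h.val ^ (α.1 h).1.val *
      ((lawV W n e lam X Ψ h.val).1 ^ (M - (α.1 h).2.val) *
        (lawV W n e lam X Ψ h.val).2 ^ (α.1 h).2.val)) *
    ∏ i : Fin 2, X (2 * n + i.val) ^ (α.2 i).val

/-- the curves over the algebra `A` -/
def mapW {K : Type} [Field K] (A : Type) [CommRing A] [Algebra K A] (W : ℕ → Affine K) :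
    ℕ → WeierstrassCurve A :=
  fun i => (W i).map (algebraMap K A)

/-- `(X_h, Ψ_h)`, `h < 2n + 2`, is a point of `∏ W_(h % 2)` over `A` (`x`-coordinates and `ψ`) -/
def OnW {K : Type} [Field K] {A : Type} [CommRing A] [Algebra K A] (W : ℕ → Affine K) (n : ℕ)
    (X Ψ : ℕ → A) : Prop :=
  ∀ h < 2 * n + 2, Ψ h ^ 2 = Bf (mapW A W (h % 2)) (X h)

/-- the bound in the key inequality (4.1), `M = δ = n`, drops `k0 q_j`; `a_h ≥ 1` bounds for `X_h` -/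
def keyB (n k0 : ℕ) (e : ℕ → ℕ) (a : ℕ → ℝ) : ℝ :=
  (∏ j ∈ Finset.range n, ((a (2 * j) * a (2 * j + 1)) ^ (2 * 4 ^ e j * n + 4 ^ e j) *
    (a (2 * n) * a (2 * n + 1)) ^ (2 * n) /
      (min (a (2 * j)) (a (2 * j + 1))) ^ (k0 * 4 ^ e j))) *
    (a (2 * n) * a (2 * n + 1)) ^ n

/-- `Σ_j q_j` -/
def sq (n : ℕ) (e : ℕ → ℕ) : ℕ := ∑ j ∈ Finset.range n, 4 ^ e j

/-- the key inequality (4.1) in every norm frame, for every law vector -/
def KEY {K : Type} [Field K] (W : ℕ → Affine K) (n k0 : ℕ) (e : ℕ → ℕ)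
    (c : Idx n n n e → K) (B : AbsoluteValue K ℝ → ℝ) : Prop :=
  ∀ (v : AbsoluteValue K ℝ) (A : Type) [CommRing A] [Algebra K A] (N : A → ℝ → Prop), NFr v N →
    ∀ (X Ψ : ℕ → A) (a : ℕ → ℝ) (s b : ℝ), OnW W n X Ψ → (∀ h < 2 * n + 2, 1 ≤ a h) → 1 ≤ b →
      (∀ h < 2 * n + 2, N (X h) (a h)) → (∀ h < 2 * n + 2, N (Ψ h) (b * a h ^ 2)) →
      (∀ α, v (c α) ≤ s) → ∀ lam : ℕ → Bool,
      N (Paux (mapW A W) n n n e (fun α => algebraMap K A (c α)) lam X Ψ)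
        (s * b ^ (4 * n) * B v ^ sq n e * keyB n k0 e a)

end aux

/-! ## Section 5: Taylor expansions -/

/-- `(X, Ψ)` is the Taylor expansion of the point `(ξ, ψ)`:
`X_h = ξ_h + 4 ψ_h² τ_h`, `Ψ_h = ψ_h + ..`. -/
structure Tay {K : Type} [Field K] (W : ℕ → Affine K) (n : ℕ) (ξ ψ : ℕ → K)
    (X Ψ : ℕ → MvPowerSeries (Fin (2 * n + 2)) K) : Prop where
  onW : OnW W n X Ψ
  eqX : ∀ h : Fin (2 * n + 2), X h.val =
    MvPowerSeries.C (ξ h.val) + MvPowerSeries.C (4 * ψ h.val ^ 2) * MvPowerSeries.X h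
  cst : ∀ h : Fin (2 * n + 2), MvPowerSeries.constantCoeff (Ψ h.val) = ψ h.val

/-- the partial degrees of the norm polynomial (6.1) -/
def ddM (n M δ : ℕ) (e : ℕ → ℕ) (h : ℕ) : ℕ :=
  if h < 2 * n then 4 ^ n * ((2 * M + 1) * 4 ^ e (h / 2)) else 4 ^ n * (2 * n * M + δ)

/-- `Σ_h α_h / d_h` -/
def wt {σ : Type} [Fintype σ] (d : σ → ℕ) (α : σ →₀ ℕ) : ℝ := ∑ h, (α h : ℝ) / (d h : ℝ)

/-! ## Section 8: the auxiliary function of part 2 -/

section aux2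

variable {A : Type} [CommRing A]

/-- the function of part 2: variables `0, 1` belong to `x_1` and `2, 3` to `x_0` (`X_h`, `Ψ_h`, `h < 4`;
`h = 0, 2`: first curve; `h = 1, 3`: second curve); `Σ c(l, m, m') X_0^l (L)^(M-m, m) (L')^(M'-m', m')`. -/
def Paux2 (W : ℕ → WeierstrassCurve A) (L M M' e : ℕ)
    (c : Fin L × Fin (M + 1) × Fin (M' + 1) → A) (lam : ℕ → Bool) (X Ψ : ℕ → A) : A :=
  ∑ α : Fin L × Fin (M + 1) × Fin (M' + 1), c α * X 0 ^ α.1.val *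
    ((law (W 0) e (lam 0) (X 0) (X 2) (Ψ 0 * Ψ 2)).1 ^ (M - α.2.1.val) *
      (law (W 0) e (lam 0) (X 0) (X 2) (Ψ 0 * Ψ 2)).2 ^ α.2.1.val) *
    ((law (W 1) e (lam 1) (X 1) (X 3) (Ψ 1 * Ψ 3)).1 ^ (M' - α.2.2.val) *
      (law (W 1) e (lam 1) (X 1) (X 3) (Ψ 1 * Ψ 3)).2 ^ α.2.2.val)

end aux2

/-! ## Heights of points, low points, non-isogenous curves -/

section points

variable {K : Type} [Field K]

/-- `|z|²` -/
def nrm {W₁ W₂ : Affine K} (H₁ : W₁.Point → ℝ) (H₂ : W₂.Point → ℝ)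
    (z : W₁.Point × W₂.Point) : ℝ := H₁ z.1 + H₂ z.2

/-- `κ(z) = (x(z_1), x(z_2))` is on an irreducible curve of degrees `≤ D` and height `≤ A` -/
def LowE [NumberField K] {W₁ W₂ : Affine K} (D : ℕ) (A : ℝ) (z : W₁.Point × W₂.Point) : Prop :=
  ∃ f : MvPolynomial (Fin 2) K, Irreducible f ∧ (∀ e, f.degreeOf e ≤ D) ∧
    eval (fun e : Fin 2 => if e = 0 then xc z.1 else xc z.2) f = 0 ∧ Real.log (PH f) ≤ A

end points

end

end Pool.Agent.Helper42.SG
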