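import Pool.Agent.Helper92.Ru.DefsR
import Pool.Agent.Helper92.Ru.GoalsR

/-!
# Project SG (MP_a41896_nt), part A: the block Roth lemma

Roth's lemma for polynomials in blocks of TWO variables `(X_j, Y_j)` of the same degree `d_j`,
`d_0 ≫ d_1 ≫ ..`: a polynomial of small height with large index at a point has a point
`(ξ_{2j}, ξ_{2j+1})` on an irreducible curve of bounded degree and small height.
Everything on Roth's lemma proved in the projects `Pool.Agent.Helper92.Ru` (files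
`Pool/Agent/Helper92/Ru/GoalsR.lean`, `AsmA.lean`; `PH`, `hasse`, `shiftP`, `IndGe`, `UV`) can be
used: `GenWron, Decomp, WronFact, WronDeg, HeightLocal, DetHeight, DetIndex, IndMul, PHMul, DivBound`.

All goals are independent (goals may be hypotheses of other goals as indicated).
-/

set_option autoImplicit false

open MvPolynomial

namespace Pool.Agent.Helper42.SG

open Pool.Agent.Helper92.Ru

/-- `p` has partial degrees `≤ r_h W`, logarithmic height `≤ H W`, index `≥ σ W` at `ξ`. -/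
def InvW {k : Type} [Field k] [NumberField k] {m : ℕ} (r : Fin m → ℕ) (ξ : Fin m → k)
    (H σ W : ℝ) (p : MvPolynomial (Fin m) k) : Prop :=
  p ≠ 0 ∧ 0 < W ∧ (∀ h, (p.degreeOf h : ℝ) ≤ r h * W) ∧ Real.log (PH p) ≤ H * W ∧
    IndGe r ξ (σ * W) p

/-- GELARCH (archimedean part of Gelfond's inequality for MANY factors): for finitely many nonzero
complex polynomials `f_i` in `m` variables and numbers `c_i` which are values of coefficients of `f_i`:
`∏ |c_i| ≤ 4 ^ (∑_h deg_h (∏ f_i)) * max |coeff (∏ f_i)|`.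
Proof. Claim (induction on `m`): there is a point `z` of the torus `|z_h| = 1` with
`∏ |c_i| ≤ 2 ^ (∑_i ∑_h deg_h f_i) ∏ |f_i(z)|`. Step: `c_i` is the coefficient of `x'^α x_m^j` in `f_i`; let
`a_i(x_m)` be the coefficient of `x'^α` (a polynomial in the last variable, of degree `≤ deg_m f_i`, with
`c_i` among its coefficients). Mahler measures (Mathlib, `Polynomial.mahlerMeasure`, one variable):
`|c_i| ≤ 2 ^ (deg a_i) M(a_i)`, `M(∏ a_i) = ∏ M(a_i)` and `M(g) ≤ sup_{|z| = 1} |g(z)|`, so there is `z_m` with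
`∏ |c_i| ≤ 2 ^ (∑ deg a_i) ∏ |a_i(z_m)|`, and `a_i(z_m)` is a coefficient of `f_i(·, z_m)`, a polynomial in
`m - 1` variables whose partial degrees are not larger. Finally
`∏ |f_i(z)| = |(∏ f_i)(z)| ≤ (number of monomials) * max |coeff| ≤ 2 ^ (∑_h deg_h) * max |coeff|`
and `∑_i deg_h f_i = deg_h (∏ f_i)` (`degreeOf_mul` in a domain; prove it if it is missing). -/
def GELARCH : Prop :=
  ∀ (m : ℕ) (ι : Type) (s : Finset ι) (f : ι → MvPolynomial (Fin m) ℂ)
    (e : ι → (Fin m →₀ ℕ)), (∀ i ∈ s, f i ≠ 0) →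
    ∃ μ : Fin m →₀ ℕ, ∏ i ∈ s, ‖coeff (e i) (f i)‖ ≤
      4 ^ (∑ h, (∏ i ∈ s, f i).degreeOf h) * ‖coeff μ (∏ i ∈ s, f i)‖

/-- GEL: Gelfond's inequality for heights, many factors: `∑ log PH f_i ≤ log PH (∏ f_i) + C TD`.
Proof: GELARCH at every archimedean place (embedding), and Gauss's lemma at the finite places
(`max_e |coeff_e (f g)|_v = max |coeff f|_v max |coeff g|_v` for nonarchimedean `v`; order the monomials
lexicographically and take the smallest ones of maximal absolute value, or Mathlib's Gauss norm).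
`PH` is the product over all places of the maximum of the coefficients (`NumberField.mulHeight_eq`).
`C = [k : ℚ] * log 4`. Assume GELARCH. -/
def GEL : Prop :=
  ∀ (k : Type) [Field k] [NumberField k] (m : ℕ), ∃ C : ℝ, 0 ≤ C ∧
    ∀ (ι : Type) (s : Finset ι) (f : ι → MvPolynomial (Fin m) k), (∀ i ∈ s, f i ≠ 0) →
      ∑ i ∈ s, Real.log (PH (f i)) ≤ Real.log (PH (∏ i ∈ s, f i)) +
        C * ∑ h, ((∏ i ∈ s, f i).degreeOf h : ℝ)

/-- INDM: the index is a valuation. Proof: `shiftP ξ` is an automorphism; for nonzero `f, g` let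
`a, b` be the minima of the weights `∑ e_h / r_h` over the supports of the translates; the product of
the leading parts (sums of the monomials of minimal weight) is not zero, so the product has a monomial
of weight exactly `a + b`. Compare `IndMul` (`Pool.Agent.Helper20.Ru.IndMul`). -/
def INDM : Prop :=
  ∀ (k : Type) [Field k] (m : ℕ) (r : Fin m → ℕ) (ξ : Fin m → k) (θ : ℝ) (ι : Type)
    (s : Finset ι) (f : ι → MvPolynomial (Fin m) k), (∀ i ∈ s, f i ≠ 0) →
    IndGe r ξ θ (∏ i ∈ s, f i) →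
    ∃ a : ι → ℝ, (∀ i ∈ s, 0 ≤ a i ∧ IndGe r ξ (a i) (f i)) ∧ θ ≤ ∑ i ∈ s, a i

/-- FAC: choice of an irreducible factor. `w(f) = ∑_h deg_h f / r_h` is additive, so
`∑ w(f_i) = w(p) ≤ m W` for the irreducible factors `f_i` of `p` (with multiplicity; `MvPolynomial` over a
field is a UFD; absorb the unit in one factor, or add a constant factor, which has `PH = 1`, degree `0`;
if `p` is a unit then `IndGe` says `σ W ≤ 0`, impossible);
`∑ log PH f_i ≤ H W + C_k ∑_h deg_h p ≤ (1 + C_k m) H W` (GEL), `∑ a_i ≥ σ W` (INDM; `IndGe r ξ a_i f_i`).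
So some `i` has `a_i > 0` and `a_i ≥ (σ / 4m) w(f_i) + (σ / (4 (1 + C_k m) H)) log PH f_i` (sum the opposite
inequalities; `PH ≥ 1`). `W' := (4 m / σ) a_i`: `deg_h f_i ≤ r_h w(f_i) ≤ r_h W'`,
`log PH f_i ≤ (4 (1 + C_k m) H / σ) a_i = ((1 + C_k m) / m) H W'`, `a_i = (σ / 4m) W'`.
(`m = 0` is impossible: the index of a nonzero constant is `0`.) Assume GEL, INDM. -/
def FAC : Prop :=
  ∀ (k : Type) [Field k] [NumberField k] (m : ℕ) (σ : ℝ), 0 < σ → ∃ C σ' : ℝ, 1 ≤ C ∧ 0 < σ' ∧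
    ∀ (r : Fin m → ℕ) (ξ : Fin m → k) (H W : ℝ) (p : MvPolynomial (Fin m) k),
      (∀ h, 1 ≤ r h ∧ (r h : ℝ) ≤ H) → InvW r ξ H σ W p →
      ∃ (f : MvPolynomial (Fin m) k) (W' : ℝ), Irreducible f ∧ InvW r ξ (C * H) σ' W' f

/-- WRON: separation of the last variable (variant of `RothAlg`, R14 of `Helper92/Ru/GoalsR.lean`, proved
in `Pool/Agent/Helper40/Ru/RothAlg.lean`; the same proof). `p = ∑_{l < s} f_l g_l` minimal
(`Decomp`, `s ≤ deg_last p + 1 ≤ D + 1`), `μ_i` from `GenWron` for the `f_l` (orders `≤ i ≤ s - 1 ≤ D`, so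
`∑_h μ_i h / r_h ≤ D / ρ`), derivatives of order `j < s` in the last variable (ordinary Wronskian of the
`g_l`, or `GenWron` in one variable), `WronFact`, `WronDeg`, `DetHeight`, `DetIndex`, `IndMul`, `PHMul`.
`U.degreeOf h ≤ s * p.degreeOf (castSucc h)`: from the degrees of the `f_l` in `Decomp`. -/
def WRON : Prop :=
  ∀ (k : Type) [Field k] [NumberField k] (m : ℕ), ∃ C : ℝ, 0 ≤ C ∧
    ∀ (r : Fin (m + 1) → ℕ) (D R : ℕ) (ρ θ : ℝ) (ξ : Fin (m + 1) → k)
      (p : MvPolynomial (Fin (m + 1)) k),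
      p ≠ 0 → (∀ h, 1 ≤ r h) → 1 ≤ R → (∀ h, p.degreeOf h ≤ R) →
      p.degreeOf (Fin.last m) ≤ D → D ≤ R → 0 < ρ → (∀ h : Fin m, ρ ≤ r (Fin.castSucc h)) →
      IndGe r ξ θ p →
      ∃ (s : ℕ) (U : MvPolynomial (Fin m) k) (V : MvPolynomial (Fin 1) k),
        1 ≤ s ∧ s ≤ D + 1 ∧ U ≠ 0 ∧ V ≠ 0 ∧
        (∀ h, U.degreeOf h ≤ s * p.degreeOf (Fin.castSucc h)) ∧ V.degreeOf 0 ≤ s * D ∧
        Real.log (PH U) + Real.log (PH V) ≤ s * (Real.log (PH p) + C * R) ∧
        ∃ a b : ℝ, 0 ≤ a ∧ 0 ≤ b ∧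
          ∑ j : Fin s, max 0 (θ - D / ρ - (j : ℝ) / (r (Fin.last m) : ℝ)) ≤ a + b ∧
          IndGe (fun h => r (Fin.castSucc h)) (fun h => ξ (Fin.castSucc h)) a U ∧
          IndGe (fun _ => r (Fin.last m)) (fun _ => ξ (Fin.last m)) b V

/-- RES: elimination of the last variable `Y` (index `m + 1`) from an irreducible polynomial `f` which
involves `Y` and a variable `V = X_h`, `h < m`. `N = deg_Y f`, `τ` the index of `f`.
`g := Res_Y (f, ∂f/∂V)`, both considered as polynomials in `Y` of (formal) degree `N` over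
`A = k[X_0, .., X_m]` (Mathlib: `Polynomial.resultant F G N N`, `resultant_map_map`, `resultant_taylor`,
`resultant_ne_zero`, `resultant_add_right_deg`; `MvPolynomial` in `m + 2` variables as polynomial in the last
one over `Fin (m + 1)`: e.g. `finSuccEquiv` after a renaming, or `optionEquivLeft`).
NONZERO: `f` is irreducible of degree `N ≥ 1` in `Y`, so irreducible over `Frac A` (Gauss,
`IsPrimitive.Int..irreducible_iff_irreducible_map_fraction_map`-type lemma for the UFD/GCD domain `A`), and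
`∂f/∂V ≠ 0` (characteristic `0`) has smaller degree in `V`, so `f` does not divide it (neither over `A[Y]`,
nor, `f` being primitive, over `Frac A`): coprime, the resultant with formal degree `N` is
`± lc(f)^(N - deg) Res ≠ 0`.
DEGREES: the Sylvester matrix is `2N × 2N` with entries coefficients (in `Y`) of `f` and `∂f/∂V`.
HEIGHT: every coefficient of the determinant is a sum of at most `(2N)! T^(2N)` products of `N`
coefficients of `f` and `N` coefficients of `∂f/∂V`; `T = ∏ (deg_h f + 1) ≤ 2^(∑ deg_h f)`,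
`∑_h deg_h f ≤ (m+2) H W`, `(2N)! ≤ (2N)^(2N)`, `N ≤ H W`, coefficients of `∂f/∂V` are integers `≤ H W` times
coefficients of `f`; local-to-global by `HeightLocal` (R7). Compare `DetHeight`
(`Pool/Agent/Helper15/Ru/DetH.lean`).
INDEX: by `resultant_taylor` and `resultant_map_map` the translate `shiftP ξ' g` is the resultant in `Y` of
`f^ξ = f(t + ξ)` and `(∂f/∂V)^ξ`. The coefficient of `Y^a` in `f^ξ` (a polynomial in the other variables) has
weight `≥ τ - a / r_Y`, that of `(∂f/∂V)^ξ` weight `≥ τ - 1/ρ - a/r_Y ≥ τ/2 - a / r_Y`. In row `i` of the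
Sylvester matrix only coefficients with `a ≤ i` occur (Mathlib's convention, `sylvester`), so all the
entries of a row `i ≤ τ r_Y / 4` have weight `≥ τ/4`, the other entries weight `≥ 0`; there are at least
`min(2N, τ r_Y / 4)` such rows. -/
def RES : Prop :=
  ∀ (k : Type) [Field k] [NumberField k] (m : ℕ), ∃ C : ℝ, 1 ≤ C ∧
    ∀ (r : Fin (m + 2) → ℕ) (ξ : Fin (m + 2) → k) (f : MvPolynomial (Fin (m + 2)) k)
      (H W τ ρ : ℝ), (∀ h, 1 ≤ r h ∧ (r h : ℝ) ≤ H) → 0 < W →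
      Irreducible f → (∀ h, (f.degreeOf h : ℝ) ≤ r h * W) → Real.log (PH f) ≤ H * W →
      0 < τ → IndGe r ξ τ f → 1 ≤ f.degreeOf (Fin.last (m + 1)) →
      (∃ h : Fin m, 1 ≤ f.degreeOf h.castSucc.castSucc) →
      0 < ρ → (∀ h : Fin m, ρ ≤ r h.castSucc.castSucc) → 1 / ρ ≤ τ / 2 →
      ∃ g : MvPolynomial (Fin (m + 1)) k, g ≠ 0 ∧
        (∀ h, g.degreeOf h ≤ 2 * f.degreeOf (Fin.last (m + 1)) * f.degreeOf (Fin.castSucc h)) ∧
        Real.log (PH g) ≤ 2 * f.degreeOf (Fin.last (m + 1)) * (C * H * W) ∧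
        IndGe (fun h => r (Fin.castSucc h)) (fun h => ξ (Fin.castSucc h))
          (min (2 * (f.degreeOf (Fin.last (m + 1)) : ℝ)) (τ * r (Fin.last (m + 1)) / 4) * (τ / 4)) g

/-- RES2: the same in one block, `f` irreducible in `k[X, Y]` (`X` = index `0`, `Y` = index `1`),
`N = deg_Y f ≥ 1`, of order `≥ o ≥ 2` at `ξ` (`IndGe (fun _ => 1) ξ o`): `g := Res_Y (f, ∂f/∂Y)` (formal
degrees `N, N`). As RES: `∂f/∂Y ≠ 0` is of smaller degree in `Y`, so prime to `f`; the coefficient of `Y^a`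
in `f^ξ`, `(∂f/∂Y)^ξ` has order `≥ o - 1 - a`; rows `i ≤ (o - 1)/2` (at least `o/2` of them, if there are that
many rows) have entries of order `≥ (o - 1)/2 ≥ o/4`. -/
def RES2 : Prop :=
  ∀ (k : Type) [Field k] [NumberField k], ∃ C : ℝ, 1 ≤ C ∧
    ∀ (ξ : Fin 2 → k) (f : MvPolynomial (Fin 2) k) (B : ℝ) (o : ℕ),
      Irreducible f → 1 ≤ f.degreeOf 1 → (∀ h, (f.degreeOf h : ℝ) ≤ B) →
      Real.log (PH f) ≤ B → 2 ≤ o → IndGe (fun _ => 1) ξ o f →
      ∃ g : MvPolynomial (Fin 1) k, g ≠ 0 ∧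
        (g.degreeOf 0 : ℝ) ≤ 2 * f.degreeOf 1 * B ∧
        Real.log (PH g) ≤ 2 * f.degreeOf 1 * (C * B) ∧
        IndGe (fun _ => 1) (fun _ => ξ 0)
          (min (2 * (f.degreeOf 1 : ℝ)) ((o : ℝ) / 2) * ((o : ℝ) / 4)) g

/-- BASE: one block. `θ = σ W`, `f` irreducible of order `o ≥ σ W d` at `ξ = (ξ_0, ξ_1)` (so `o ≥ 1`,
`f(ξ) = 0`). If `σ W d ≤ 1`: `deg_h f ≤ d W ≤ 1/σ =: D`, `d log PH f ≤ d H W ≤ H/σ`. If `σ W d > 1` then
`o := ⌈σ W d⌉ ≥ 2`. If `deg_Y f = 0` then `f` is a polynomial in `X` irreducible over `k` with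
`f(ξ_0) = 0`, so `f = c (X - ξ_0)` has order `1`, contradiction. Otherwise RES2 with
`B = H W` (`d W ≤ H W`): `N = deg_Y f ≤ d W ≤ o/σ`, so `min(2N, o/2) ≥ min(2, σ/2) N`, the order of `g` at
`ξ_0` is `≥ min(2, σ/2) N o / 4`, and `DivBound` (R12): `ord * log H(ξ_0) ≤ deg g [k:ℚ] log 2 + log PH g
≤ 2 N C' H W ≤ 2 N C' H o / (σ d)` (`W ≤ o/(σ d)`). So `d log H(ξ_0) ≤ C'' H`, contradiction to the
hypothesis for `Kc > C''`. Assume RES2, DivBound. -/
def BASE : Prop :=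
  ∀ (k : Type) [Field k] [NumberField k] (σ : ℝ), 0 < σ → ∃ (D : ℕ) (Kc : ℝ), 1 ≤ Kc ∧
    ∀ (d : ℕ) (ξ : Fin 2 → k) (H W : ℝ) (f : MvPolynomial (Fin 2) k), 1 ≤ d → (d : ℝ) ≤ H →
      Irreducible f → InvW (fun _ => d) ξ H σ W f →
      (∀ e, Kc * H < d * Height.logHeight₁ (ξ e)) →
      (∀ e, f.degreeOf e ≤ D) ∧ eval ξ f = 0 ∧ d * Real.log (PH f) ≤ Kc * H

/-- the conclusion of the block Roth lemma: some point `(ξ_{2j}, ξ_{2j+1})` is on an irreducible
curve of degree `≤ D` and height `≤ A / d_j`. -/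
def LowPt {k : Type} [Field k] [NumberField k] (n : ℕ) (d : ℕ → ℕ) (ξ : ℕ → k) (D : ℕ)
    (A : ℝ) : Prop :=
  ∃ j < n, ∃ f : MvPolynomial (Fin 2) k, Irreducible f ∧ (∀ e, f.degreeOf e ≤ D) ∧
    eval (fun e : Fin 2 => ξ (2 * j + e.val)) f = 0 ∧ d j * Real.log (PH f) ≤ A

/-- The block Roth lemma for `n` blocks. -/
def BL (n : ℕ) : Prop :=
  ∀ (k : Type) [Field k] [NumberField k] (σ : ℝ), 0 < σ →
    ∃ (D : ℕ) (Kc ω : ℝ), 1 ≤ Kc ∧ 0 < ω ∧ ω ≤ 1 ∧
    ∀ (d : ℕ → ℕ) (ξ : ℕ → k) (H W : ℝ) (p : MvPolynomial (Fin (2 * n)) k),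
      (∀ j < n, 1 ≤ d j ∧ (d j : ℝ) ≤ H) →
      (∀ j j' : ℕ, j < j' → j' < n → (d j' : ℝ) ≤ ω * d j) →
      (∀ h < 2 * n, Kc * H < d (h / 2) * Height.logHeight₁ (ξ h)) →
      InvW (fun h : Fin (2 * n) => d (h.val / 2)) (fun h : Fin (2 * n) => ξ h.val) H σ W p →
      LowPt n d ξ D (Kc * H)

/-- BSTEP: the induction step. `p` in `2n + 2` variables. FAC: replace `p` by an irreducible `f` (constants
`C H`, `σ`, `W`, new names). `r = d n` = the weight of the last block `(X, Y)` = indices `2n, 2n+1`.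
(i) `f` involves no variable of the last block: it comes from a polynomial in `2n` variables (`exists_rename..`,
`PH`, `IndGe`, degrees are the same): `BL n`.
(ii) `f` involves only the last block: it comes from a polynomial in `Fin 2`: BASE with `d = d n`, `j = n`.
(iii) otherwise `W ≥ 1/r` (some degree in the last block is `≥ 1`), every lower weight is `≥ ρ := r/ω`.
 (a) if `N = deg_Y f ≥ 1`: RES with `τ = σ W` (`1/ρ = ω/r ≤ ω W ≤ σ W/2` if `ω ≤ σ/2`): `g` in `2n + 1` variables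
 with degrees `≤ 2 N r_h W`, height `≤ 2N C H W`, index `≥ min(2N, σ W r/4) σ W/4 ≥ N min(2, σ/4) σ W/4`
 (`N ≤ r W`). So with `W_g = 2 N W ≥ 1/r`: degrees `≤ r_h W_g`, height `≤ C H W_g`, index
 `≥ σ₃ W_g`, `σ₃ = min(2, σ/4) σ/8`. (b) if `deg_Y f = 0`: `g = f` in `2n+1` variables, `W_g = W`, `σ₃ = σ`.
 WRON for `g`, `θ = σ₃ W_g`, `D := deg_X g ≤ r W_g`, `D/ρ ≤ ω W_g ≤ θ/4` if `ω ≤ σ₃/4`, `R := ⌈H W_g⌉ ≤ 2 H W_g`
 (`H W_g ≥ 1` because `H ≥ r`, `W_g ≥ 1/r`). The terms with `j ≤ θ r/2` of the sum are `≥ θ/4`; there are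
 `≥ min(s, θ r/2)` of them, and `s ≤ D + 1 ≤ 2 r W_g` if `D ≥ 1` (if `D = 0`, `s = 1`, one term):
 the sum is `≥ s σ₄ W_g`, `σ₄ = min(1, σ₃/4) σ₃/4`. If `b ≥ s σ₄ W_g/2`: `V` has order `≥ s σ₄ W_g r/2` at
 `ξ_{2n}`, `DivBound`: `(s σ₄ W_g r/2) log H(ξ) ≤ s r W_g [k:ℚ] log 2 + s C' H W_g`, so `r log H(ξ) ≤ C'' H`,
 contradiction for `Kc > C''`. Otherwise `a ≥ s σ₄ W_g/2`: `U` (in `2n` variables) satisfies `InvW` with
 `W = s W_g`, `C' H`, `σ₄/2`: `BL n`.
Take the maximum of the `D`, `Kc` (times the constants `C`) and the minimum of the `ω`.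
Assume FAC, WRON, RES, BASE, DivBound. -/
def BSTEP : Prop := ∀ n : ℕ, BL n → BL (n + 1)

/-- BZERO: `BL 0` (a nonzero constant has index `0`, so the hypothesis is contradictory). -/
def BZERO : Prop := BL 0

end Pool.Agent.Helper42.SG
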