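import Pool.Agent.Helper42.SG.GoalsB

/-!
# Project SG, module C (section 4): the auxiliary function of part 1 and the key inequality
-/

set_option autoImplicit false

open MvPolynomial

namespace Pool.Agent.Helper42.SG

open WeierstrassCurve Height
open Pool.Agent.Helper29.BL Pool.Agent.Helper92.Ru

/-- AUX: the auxiliary function of part 1. `M = δ = n`, drops `m_j = k0 q_j`, `q_j = 4^(e_j)`.
Assume ECOEF. The proof is section 4 of the paper:

Write `G^h_(μ,m)(i,g)` for the array of ECOEF for the curve `W (h%2)`, the exponent `e (h/2)`, the law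
`lam h`, `M = n`, and `m = m_h`. In every `K`-algebra
`P^λ = ∑_(α,β) c(α,β) ∏_(h<2n) [∑_(μ_h,s_h,g_h) η_h^(μ_h) X_h^(l_h + s_h) X_(0h)^(g_h) G^h(s_h,g_h)] X_0^β`
(`η_h = Ψ_h Ψ_(2n+h%2)`, `η_h^2 = B B` by `OnW`).
CONDITIONS of the block `j < n` (`h = 2j, 2j+1`): for every value of the indices `α_h`, `h ≠ 2j, 2j+1`, every
pair of laws for `h = 2j, 2j+1` (4), parities `(μ, μ')` (4), `(g, g') ∈ [0, 3n)^2` and every
`(i, i')` with `i + 2μ, i' + 2μ' ≤ 2 q_j n + q_j` and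
`(i + 2μ) + (i' + 2μ') > 4 q_j n - k0 q_j` (FORBIDDEN):
`∑_(l,m,l',m',β,β') c(..) G_μ,m(i - l, g - β) G'_μ',m'(i' - l', g' - β') = 0` (terms with `l > i`, `β > g`.. are zero).
NUMBER: with `p = 2 q_j n + q_j - (i + 2μ) ≥ 0` and `p'` likewise, forbidden means
`p + p' < (2 + k0) q_j`, so there are `≤ 16 (3n)^2 ((k0+2) q_j)^2 N / (q_j^2 (n+1)^2 n^2) ≤ 144 (k0+2)^2 N / n^2`
conditions for the block `j`, `N = #Idx`, in all `≤ 144 (k0+2)^2 N / n ≤ N / 2`. (It is allowed, and simpler, to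
use one row for every element of a larger index TYPE whose cardinality is bounded as above.)
Multiplied by `(D D')^(n q_j)` (ECOEF; take the product for both curves, and `4^(e_j)` maximal) the
entries are integral, of house `≤ exp(C q_max)`. SIEGEL (`Pool.Agent.Helper68.Ru.siegel`): `c` integral,
`c ≠ 0`, `house c ≤ exp(C ∑ q_j)` (`N ≤ exp(C ∑ q_j)`).
CONSEQUENCE: expand `P^λ` as a sum over `(μ_h, i_h)_(h<2n)` of
`∏_h Ψ_h^(μ_h) X_h^(i_h) · ∏ Ψ_(2n+h%2)^(μ_h) · [∑_(α,β) c ∏_h (∑_g G^h(i_h - l_h, g) X_0^g) X_0^β]`; if the pair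
`(i_(2j), μ_(2j); i_(2j+1), μ_(2j+1))` is forbidden for some `j` then the bracket is zero: sum over
`α_(2j), α_(2j+1), β` first, the factors of the other `h` do not depend on these, and
`∑_(α_2j, α_2j+1, β) c G(i-l,g1) G'(i'-l',g1') X_0^(g1+β)..` collects to the conditions with `g = g1 + β_0`,
`g' = g1' + β_1`.
ESTIMATE in a norm frame: a surviving term is `≤ s ∏_h B_v^(q n) ∏_h (b a_h^2)^(μ_h) (b a_0h^2)^(μ_h)
a_h^(i_h) a_0h^(2n - 2μ_h) · (a_(2n) a_(2n+1))^n` with `a_h^(i_h + 2μ_h) a_(h+1)^(i_(h+1) + 2μ_(h+1))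
≤ (a a')^(2 q_j n + q_j) / min(a, a')^(k0 q_j)` (`h = 2j`; `α, α' ≤ 2qn + q`, `α + α' ≤ 4qn - k0 q`; if
`a ≥ a'`: `a^α a'^α' ≤ (a/a')^α a'^(4qn - k0 q) ≤ (a/a')^(2qn+q) a'^(4qn - k0 q)`), the number of
terms is `≤ C^(∑ q_j)` (only archimedean places; put it into `B_v`), note `n ≥ 1`.
The hypothesis `n > 0` follows. -/
def AUX : Prop :=
  ∀ (K : Type) [Field K] [NumberField K] (W : ℕ → Affine K) (n k0 : ℕ), 288 * (k0 + 2) ^ 2 ≤ n →
    ∃ (C : ℝ) (B : AbsoluteValue K ℝ → ℝ), PlC B ∧ 0 ≤ C ∧ ∀ e : ℕ → ℕ,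
      ∃ c : Idx n n n e → K, c ≠ 0 ∧ (∀ α, IsIntegral ℤ (c α)) ∧
        (∀ α, NumberField.house (c α) ≤ Real.exp (C * sq n e)) ∧
        KEY W n k0 e c B

end Pool.Agent.Helper42.SG
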