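import Pool.Agent.Helper42.SG.GoalsT

/-!
# Project SG: Theorem P1 (`PONE`), Theorem P2 (`PTWO`), the pigeonhole argument (`SEQ`), and the final
theorem (`GCDT`)
-/

set_option autoImplicit false

open MvPolynomial

namespace Pool.Agent.Helper42.SG

open WeierstrassCurve Height
open Pool.Agent.Helper29.BL Pool.Agent.Helper92.Ru

/-! ## Section 2 -/

/-- CLS: the pigeonhole classes. `N` from PACK (`Pool.Agent.Helper29.BL.th_pack`). The finite sequence `z_0, .., z_m` has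
increasing norms (`H(z_i) ≤ H(z_(i+1))`, `H(z_0) > 0`). `R := √H(z_m)`, `f_i ∈ ℕ` with `2^(f_i) √H(z_i) ∈ [R, 2R)`, `B` = the set
of the `2^(f_i) z_i`, `κ ρ = 4R`, `ρ = θ R`. If `2^(f_i) z_i`, `2^(f_j) z_j` are in one class, `i < j`: `f_i ≥ f_j`
(`√H(z_i) ≤ √H(z_j)`), `√H(2^(f_i) z_i - 2^(f_j) z_j) ≤ θ R ≤ θ 2^(f_j) √H(z_j)`; divide by `2^(f_j)` (QSN: `H(n x) = n² H(x)`). -/
def CLS : Prop :=
  ∀ (G : Type) [AddCommGroup G] (Γ : AddSubgroup G), Γ.FG → ∀ (H : G → ℝ), IsQuad H →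
    ∀ θ : ℝ, 0 < θ → ∃ N : ℕ, ∀ (m : ℕ) (z : ℕ → G), (∀ i, z i ∈ Γ) → 0 < H (z 0) →
      (∀ i, H (z i) ≤ H (z (i + 1))) →
      ∃ f : ℕ → Fin N, ∀ i j : ℕ, i < j → j ≤ m → f i = f j →
        ∃ e : ℕ, H ((2 ^ e) • z i - z j) ≤ θ ^ 2 * H (z j)

/-- SEQ: section 2. Suppose there are `z ∈ Γ` with `Ex z` and `H z` arbitrarily large. Then there is a
sequence `z_i ∈ Γ` with `Ex (z_i)`, `H(z_0) ≥ K`, `H(z_(i+1)) ≥ K H(z_i)`, `K ≥ 1, K0`. CLS with `m = N n`: among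
`z_0, .., z_(N n)` there are `n + 1` members (increasing indices) in one class; these and the exponents from CLS
contradict the hypothesis. Assume CLS. -/
def SEQ : Prop :=
  ∀ (G : Type) [AddCommGroup G] (Γ : AddSubgroup G), Γ.FG → ∀ (H : G → ℝ), IsQuad H →
    ∀ (Ex : G → Prop) (n : ℕ) (θ K0 : ℝ), 0 < θ →
    (∀ (x : ℕ → G) (e : ℕ → ℕ), K0 ≤ H (x 0) → (∀ j < n, K0 * H (x j) ≤ H (x (j + 1))) →
      (∀ j < n, H ((2 ^ (e j)) • x j - x n) ≤ θ ^ 2 * H (x n)) → (∀ j ≤ n, Ex (x j)) → False) →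
    ∃ R : ℝ, ∀ z ∈ Γ, Ex z → H z ≤ R

/-! ## Theorem P1 -/

/-- HHO: the height of an integral vector. (`PS_log_iSup`; nonarchimedean places `≤ 1`, archimedean
places: norms of complex embeddings, `≤ house`; their number with multiplicities is `[K : ℚ]`.) -/
def HHO : Prop :=
  ∀ (K : Type) [Field K] [NumberField K] (ι : Type) [Finite ι] (c : ι → K) (A : ℝ), c ≠ 0 →
    0 ≤ A → (∀ i, IsIntegral ℤ (c i)) → (∀ i, NumberField.house (c i) ≤ Real.exp A) →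
    logHeight c ≤ Module.finrank ℚ K * A

/-- LAWH: the height of the pair `L^0` is the height of `x(2^e P - Q)`. From ELAW:
`L^0 = λ (1, x(w))` or `(0, λ)`, `λ ≠ 0`; `PS_add`, `PS_log`, `PS_log_Mv`. Assume ELAW. -/
def LAWH : Prop :=
  ∀ (K : Type) [Field K] [NumberField K] [DecidableEq K] (W : Affine K) [W.IsElliptic]
    (P Q : W.Point) (e : ℕ), P ≠ 0 → Q ≠ 0 → (2 ^ e) • P + Q ≠ 0 →
    FS (fun v => Real.log (max (v (law W e false (xc P) (xc Q) (ps P * ps Q)).1)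
        (v (law W e false (xc P) (xc Q) (ps P * ps Q)).2))) ∧
    PS (fun v => Real.log (max (v (law W e false (xc P) (xc Q) (ps P * ps Q)).1)
        (v (law W e false (xc P) (xc Q) (ps P * ps Q)).2))) = hx ((2 ^ e) • P - Q)

/-- GINQ: the global inequality of section 7: sum the logarithms of the local inequality (with
`s = ⨆ α, v (c α)`; `PS_log_iSup`, HHO; `PS_mono`, `PS_add`, `PS_sum`, `PS_log` (product formula for `δ`), `PS_log_Mv`). The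
numbers `lo h` are the two components of the law of the variable `h`. Assume HHO. -/
def GINQ : Prop :=
  ∀ (K : Type) [Field K] [NumberField K] (n k0 : ℕ) (Bt B' : AbsoluteValue K ℝ → ℝ),
    PlC Bt → PlC B' → ∃ C : ℝ, 0 ≤ C ∧
    ∀ (e : ℕ → ℕ) (ι : Type) [Finite ι] (c : ι → K) (A : ℝ) (ξ : ℕ → K) (lo : ℕ → K × K)
      (α : Fin (2 * n + 2) →₀ ℕ) (δ : K), c ≠ 0 → 0 ≤ A → (∀ i, IsIntegral ℤ (c i)) →
      (∀ i, NumberField.house (c i) ≤ Real.exp A) → δ ≠ 0 →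
      (∀ h < 2 * n, (lo h).1 ≠ 0 ∨ (lo h).2 ≠ 0) →
      (∀ h < 2 * n, FS (fun v => Real.log (max (v (lo h).1) (v (lo h).2)))) →
      (∀ (v : AbsoluteValue K ℝ) (s : ℝ), (∀ i, v (c i) ≤ s) →
        v δ ≤ s * Bt v ^ (sq n e) *
        (∏ h ∈ Finset.range (2 * n), (max (v (lo h).1) (v (lo h).2)) ^ n *
          Mv v (ξ h) ^ (4 ^ e (h / 2))) /
        (∏ j ∈ Finset.range n, (min (Mv v (ξ (2 * j))) (Mv v (ξ (2 * j + 1)))) ^ (k0 * 4 ^ e j)) *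
        (Mv v (ξ (2 * n)) * Mv v (ξ (2 * n + 1))) ^ n *
        ∏ i : Fin (2 * n + 2), (B' v * Mv v (ξ i.val) ^ 2) ^ (α i)) →
      ∑ j ∈ Finset.range n, ((k0 * 4 ^ e j : ℕ) : ℝ) *
          PS (fun v => min (Real.posLog (v (ξ (2 * j)))) (Real.posLog (v (ξ (2 * j + 1))))) ≤
        ∑ h ∈ Finset.range (2 * n), (n * PS (fun v => Real.log (max (v (lo h).1) (v (lo h).2))) +
          ((4 ^ e (h / 2) : ℕ) : ℝ) * logHeight₁ (ξ h)) +
        n * (logHeight₁ (ξ (2 * n)) + logHeight₁ (ξ (2 * n + 1))) +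
        ∑ i : Fin (2 * n + 2), (α i : ℝ) * (C + 2 * logHeight₁ (ξ i.val)) +
        C * (sq n e + A)

/-- **Theorem P1** (sections 4 - 7), sharp form. `x 0, .., x (n-1)` are the points `x_1, .., x_n` of the paper,
`x n` is `x_0`. Assembly (see section 7): `W' i := if i = 0 then W₁ else W₂`, `ξ h := x`-coordinate of the component
`h % 2` of `x (h / 2)`, `ψ h` likewise, `ω h := x(2^(e (h/2)) a + a_0)`; `ψ h ≠ 0` and `2^e a + a_0 ≠ 0` for large `K0`;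
AUX gives `c`, NQ (`M = δ = n`) gives `Q`, `BL (n + 1)` (`Pool.Agent.Helper76.SGA`) with `d j = ddM n n n e (2 j)`,
`W = 1`, `H = C sq n e`: either a low point (`d j log PH f ≤ Kc H`, `sq n e ≤ n 4^(e 0)`,
`4^(e 0) nrm (x 0) ≤ 4 nrm (x n) ≤ 16 · 4^(e j) nrm (x j)`) or `IndGe d ξ σ₁ Q` fails, `σ₁ = 4^(-n)/(20 n)`; so by QIX there
is `α` with `wt α < σ₁` and non-zero coefficient; take one of minimal weight (finitely many `α` of weight `< σ₁`);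
LAWC, LOCE (TAY, ELOC), GINQ (ELAW, LAWH); numbers of section 7 with `k0 = ⌈8/ε⌉` (at least `8`), `n = (17 (k0 + 2))^2`. -/
def PONE : Prop :=
  ∀ (K : Type) [Field K] [NumberField K] [DecidableEq K] (W₁ W₂ : Affine K) [W₁.IsElliptic]
    [W₂.IsElliptic] (H₁ : W₁.Point → ℝ) (H₂ : W₂.Point → ℝ) (c₀ ε : ℝ), CanH W₁ H₁ c₀ →
    CanH W₂ H₂ c₀ → 0 < ε → ∃ (n D : ℕ) (CI θ K0 : ℝ), 0 < θ ∧
      ∀ (x : ℕ → W₁.Point × W₂.Point) (e : ℕ → ℕ), K0 ≤ nrm H₁ H₂ (x 0) →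
        (∀ j < n, K0 * nrm H₁ H₂ (x j) ≤ nrm H₁ H₂ (x (j + 1))) →
        (∀ j < n, nrm H₁ H₂ ((2 ^ (e j)) • x j - x n) ≤ θ ^ 2 * nrm H₁ H₂ (x n)) →
        (∀ j ≤ n, ε * nrm H₁ H₂ (x j) ≤ gg (x j)) →
        ∃ j ≤ n, LowE D (CI * (nrm H₁ H₂ (x j) / nrm H₁ H₂ (x 0))) (x j)

/-! ## Theorem P2 (helper68, helper66) -/

/-- **Theorem P2''**. `z = (a_1, b_1)` exceptional, `x_0` exceptional and LOW with `h(f_0) ≤ CI q`, `q = 4^e`,
`2^e z` near `x_0`: then `z` is on an irreducible curve of bounded degree and bounded height. -/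
def PTWO : Prop :=
  ∀ (K : Type) [Field K] [NumberField K] [DecidableEq K] (W₁ W₂ : Affine K) [W₁.IsElliptic]
    [W₂.IsElliptic] (H₁ : W₁.Point → ℝ) (H₂ : W₂.Point → ℝ) (c₀ ε CI : ℝ) (D : ℕ),
    CanH W₁ H₁ c₀ → CanH W₂ H₂ c₀ → 0 < ε → ∃ (D' : ℕ) (C' θ K0 : ℝ), 0 < θ ∧
      ∀ (z x₀ : W₁.Point × W₂.Point) (e : ℕ), K0 ≤ nrm H₁ H₂ z →
        K0 * nrm H₁ H₂ z ≤ nrm H₁ H₂ x₀ →
        nrm H₁ H₂ ((2 ^ e) • z - x₀) ≤ θ ^ 2 * nrm H₁ H₂ x₀ →
        ε * nrm H₁ H₂ z ≤ gg z → ε * nrm H₁ H₂ x₀ ≤ gg x₀ →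
        LowE D (CI * (nrm H₁ H₂ x₀ / nrm H₁ H₂ z)) x₀ → LowE D' C' z

/-! ## The theorem -/

/-- FINH: the points on irreducible curves of bounded degree and height are on one curve. Northcott: after
scaling one coefficient to `1` the coefficients of `f` have bounded height (`logHeight₁ (x_i / x_j) ≤ logHeight x`), so
there are finitely many `f` up to factors (finitely many exponents `e ≤ D`, Mathlib:
`NumberField.finite_setOf..mulHeight₁_le` / `Northcott`); `Z` = their product. -/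
def FINH : Prop :=
  ∀ (K : Type) [Field K] [NumberField K] (D : ℕ) (C : ℝ), ∃ Z : MvPolynomial (Fin 2) K, Z ≠ 0 ∧
    ∀ f : MvPolynomial (Fin 2) K, Irreducible f → (∀ e, f.degreeOf e ≤ D) →
      Real.log (PH f) ≤ C → ∃ g, Z = f * g

/-- **Silverman's conjecture** for points of finitely generated groups on two elliptic curves.
From SEQ, PONE, PTWO, FINH, CAN: `Z` := the product of the two polynomials of FINH (low points of P1 with
bound `CI`, conclusion of P2), `Ex z := ε |z|² ≤ gg z ∧ eval (kap z) Z ≠ 0`. Let `x j, e j` be as in the hypothesis of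
SEQ with `θ` (small compared with the `θ` of PTWO), `K0` large; by PONE some `x j` is low. `j = 0`: `LowE D CI (x 0)`,
contradiction to `Z ≠ 0` at `x 0`. `j > 0`: PTWO with `z = x 0`, `x₀ = x j`, exponent `e 0 - e j` (`e j := 0` if `j = n`),
`|2^(e 0 - e j) x 0 - x j| ≤ 2^(-e j) 2 θ |x n| ≤ 4θ |x j|`: again `Z(x 0) = 0`. By SEQ the exceptional
points off `Z` have `|z|² ≤ R`, there `gg z ≤ hx z.1 ≤ R + c₀`; if `ε |z|² > gg z` then `gg z ≤ ε (hh z + 2 c₀)`. -/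
def GCDT : Prop :=
  ∀ (K : Type) [Field K] [NumberField K] [DecidableEq K] (W₁ W₂ : Affine K) [W₁.IsElliptic]
    [W₂.IsElliptic] (Γ₁ : AddSubgroup W₁.Point) (Γ₂ : AddSubgroup W₂.Point),
    Γ₁.FG → Γ₂.FG → ∀ ε : ℝ, 0 < ε → ∃ (Z : MvPolynomial (Fin 2) K) (C : ℝ), Z ≠ 0 ∧
      ∀ z : W₁.Point × W₂.Point, z.1 ∈ Γ₁ → z.2 ∈ Γ₂ →
        eval (fun i : Fin 2 => if i = 0 then xc z.1 else xc z.2) Z ≠ 0 → gg z ≤ ε * hh z + C

end Pool.Agent.Helper42.SG
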