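import Pool.Agent.Helper42.SG.Final

/-!
# Project SG: from `GCDT` to Vojta's inequality for blow-ups of products of elliptic curves
-/

set_option autoImplicit false

open MvPolynomial

namespace Pool.Agent.Helper42.SG

open WeierstrassCurve Height
open Pool.Agent.Helper29.BL Pool.Agent.Helper92.Ru

noncomputable section

/-- `½ Σ_v min_i log⁺|x(z_i)|_v` -/
def eH {K : Type} [Field K] [NumberField K] {n : ℕ} {W : Fin n → Affine K}
    (z : ∀ i, (W i).Point) : ℝ :=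
  PS (fun v => ⨅ i, Real.posLog (v (xc (z i)))) / 2

/-- `Σ_i h(x(z_i))` -/
def bH {K : Type} [Field K] [NumberField K] {n : ℕ} {W : Fin n → Affine K}
    (z : ∀ i, (W i).Point) : ℝ := ∑ i, logHeight₁ (xc (z i))

theorem eH_le {K : Type} [Field K] [NumberField K] {n : ℕ} {W : Fin n → Affine K}
    (z : ∀ i, (W i).Point) (i₁ i₂ : Fin n) :
    eH z ≤ gg (W₁ := W i₁) (W₂ := W i₂) (z i₁, z i₂) / 2 := by
  unfold eH gg
  have hne : Nonempty (Fin n) := ⟨i₁⟩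
  have hbdd : ∀ v : AbsoluteValue K ℝ,
      BddBelow (Set.range fun i => Real.posLog (v (xc (z i)))) := fun v =>
    (Set.finite_range _).bddBelow
  have hle : ∀ v : AbsoluteValue K ℝ, (⨅ i, Real.posLog (v (xc (z i)))) ≤
      lam v ((z i₁, z i₂) : (W i₁).Point × (W i₂).Point) := fun v =>
    le_min (ciInf_le (hbdd v) i₁) (ciInf_le (hbdd v) i₂)
  have h0 : ∀ v : AbsoluteValue K ℝ, 0 ≤ ⨅ i, Real.posLog (v (xc (z i))) := fun v =>
    le_ciInf fun i => Real.posLog_nonneg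
  have hF : FS (fun v => ⨅ i, Real.posLog (v (xc (z i)))) :=
    (FS_posLog (xc (z i₁))).mono fun v _ hv =>
      le_antisymm ((ciInf_le (hbdd v) i₁).trans hv.le) (h0 v)
  have := PS_mono hF (FS_lam ((z i₁, z i₂) : (W i₁).Point × (W i₂).Point)) hle
  linarith

/-- heights of translates -/
theorem hh_sub_le (hcan : CAN) {K : Type} [Field K] [NumberField K] [DecidableEq K]
    (W : Affine K) [W.IsElliptic] (a : W.Point) :
    ∃ C : ℝ, ∀ P : W.Point, hx (P - a) ≤ 2 * hx P + C := by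
  obtain ⟨H, c, hH⟩ := hcan K W
  refine ⟨2 * H a + 3 * c, fun P => ?_⟩
  have h1 := hH.quad.par P a
  have h2 := hH.quad.nonneg (P + a)
  have h3 := abs_le.1 (hH.near (P - a))
  have h4 := abs_le.1 (hH.near P)
  linarith [h3.1, h4.2]

/-- Vojta's inequality from `GCDT`. -/
theorem vojta (hcan : CAN) (hG : GCDT) (K : Type) [Field K] [NumberField K]
    [DecidableEq K] (n : ℕ) (W : Fin n → Affine K) (i₁ i₂ : Fin n) (hi : i₁ ≠ i₂)
    (h₁ : (W i₁).IsElliptic) (h₂ : (W i₂).IsElliptic)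
    (Γ₁ : AddSubgroup (W i₁).Point) (Γ₂ : AddSubgroup (W i₂).Point) (hΓ₁ : Γ₁.FG) (hΓ₂ : Γ₂.FG)
    (S : Finset (∀ i, (W i).Point)) (hK hN hH : (∀ i, (W i).Point) → ℝ) (c₀ C₀ : ℝ)
    (Z₀ : MvPolynomial (Fin n) K)
    (hK' : ∀ z, (∀ a ∈ S, ∀ i, z i ≠ a i) → hK z ≤ C₀ * ∑ a ∈ S, eH (z - a) + C₀)
    (hcount : ∀ z, 0 ≤ hN z) (hc₀ : 0 < c₀) (hZ₀ : Z₀ ≠ 0)
    (hbig : ∀ z, (∀ i, z i ≠ 0) → eval (fun i => xc (z i)) Z₀ ≠ 0 → c₀ * bH z - C₀ ≤ hH z)
    (δ : ℝ) (hδ : 0 < δ) :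
    ∃ (Z : MvPolynomial (Fin n) K) (C : ℝ), Z ≠ 0 ∧ ∀ z : ∀ i, (W i).Point,
      z i₁ ∈ Γ₁ → z i₂ ∈ Γ₂ →
      (∀ a, a = 0 ∨ a ∈ S → (∀ i, z i ≠ a i) ∧ eval (fun i => xc (z i - a i)) Z ≠ 0) →
      hK z - δ * hH z - C ≤ hN z := by
  classical
  set G₁ : AddSubgroup (W i₁).Point :=
    Γ₁ ⊔ AddSubgroup.closure (S.image fun a => a i₁ : Finset _) with hG₁
  set G₂ : AddSubgroup (W i₂).Point :=
    Γ₂ ⊔ AddSubgroup.closure (S.image fun a => a i₂ : Finset _) with hG₂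
  have hF₁ : G₁.FG := hΓ₁.sup ⟨_, rfl⟩
  have hF₂ : G₂.FG := hΓ₂.sup ⟨_, rfl⟩
  -- a bound `C₁ ≥ C₀, 1`
  set C₁ := max C₀ 0 with hC₁
  have hC₁0 : 0 ≤ C₁ := le_max_right _ _
  have key : ∃ ε : ℝ, 0 < ε ∧ C₁ * (S.card * (ε * 2)) / 2 ≤ δ * c₀ := by
    refine ⟨δ * c₀ / (C₁ * S.card + 1), by positivity, ?_⟩
    have h0 : 0 < C₁ * (S.card : ℝ) + 1 := by positivity
    have h1 : C₁ * ((S.card : ℝ) * (δ * c₀ / (C₁ * S.card + 1) * 2)) / 2 =
        δ * c₀ * ((C₁ * S.card) / (C₁ * S.card + 1)) := by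
      field_simp
    rw [h1]
    have h2 : (C₁ * (S.card : ℝ)) / (C₁ * S.card + 1) ≤ 1 := by
      rw [div_le_one h0]; linarith
    have h3 : 0 < δ * c₀ := by positivity
    nlinarith
  obtain ⟨ε, hε, hεδ⟩ := key
  obtain ⟨Z1, C2, hZ1, hg⟩ := hG K (W i₁) (W i₂) G₁ G₂ hF₁ hF₂ ε hε
  -- heights of translates, uniformly for `a ∈ S`
  have hex : ∃ C3 : ℝ, 0 ≤ C3 ∧ ∀ a ∈ S, ∀ (P : (W i₁).Point) (Q : (W i₂).Point),
      hx (P - a i₁) ≤ 2 * hx P + C3 ∧ hx (Q - a i₂) ≤ 2 * hx Q + C3 := by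
    choose f hf using fun a : (W i₁).Point => hh_sub_le hcan (W i₁) a
    choose g hg using fun a : (W i₂).Point => hh_sub_le hcan (W i₂) a
    refine ⟨∑ a ∈ S, (|f (a i₁)| + |g (a i₂)|), by positivity, fun a ha P Q => ?_⟩
    have h1 : |f (a i₁)| + |g (a i₂)| ≤ ∑ a ∈ S, (|f (a i₁)| + |g (a i₂)|) :=
      Finset.single_le_sum (f := fun a : (∀ i, (W i).Point) => |f (a i₁)| + |g (a i₂)|)
        (fun _ _ => by positivity) ha
    have h2 := hf (a i₁) P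
    have h3 := hg (a i₂) Q
    have h4 := le_abs_self (f (a i₁))
    have h5 := le_abs_self (g (a i₂))
    have h6 := abs_nonneg (f (a i₁))
    have h7 := abs_nonneg (g (a i₂))
    exact ⟨by linarith, by linarith⟩
  obtain ⟨C3, hC30, hC3⟩ := hex
  -- the embedding of `K[X, Y]` in `K[X_1..X_n]`
  let j : Fin 2 → Fin n := fun i => if i = 0 then i₁ else i₂
  have hj : Function.Injective j := by
    intro a b hab
    fin_cases a <;> fin_cases b <;> simp_all [j, hi.symm]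
  have hZne : rename j Z1 ≠ 0 := fun h => hZ1 ((rename_injective j hj) (by rw [h, map_zero]))
  refine ⟨Z₀ * rename j Z1, C₁ + δ * C₁ + C₁ * (S.card * ((ε * (2 * C3) + |C2|) / 2)),
    mul_ne_zero hZ₀ hZne, ?_⟩
  intro z hz1 hz2 hz
  have hN0 := hcount z
  have hz0 := hz 0 (Or.inl rfl)
  have hzS : ∀ a ∈ S, ∀ i, z i ≠ a i := fun a ha i => (hz a (Or.inr ha)).1 i
  have e1 := hK' z hzS
  have hb := hbig z (fun i => hz0.1 i) (fun h => hz0.2 (by
    rw [map_mul]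
    simp only [Pi.zero_apply, sub_zero]
    rw [h, zero_mul]))
  have hbH0 : ∀ i ∈ (Finset.univ : Finset (Fin n)), 0 ≤ logHeight₁ (xc (z i)) := fun i _ =>
    zero_le_logHeight₁ _
  have hbH : hx (z i₁) + hx (z i₂) ≤ bH z := by
    unfold bH hx
    have : ∑ i ∈ ({i₁, i₂} : Finset (Fin n)), logHeight₁ (xc (z i)) ≤
        ∑ i, logHeight₁ (xc (z i)) :=
      Finset.sum_le_sum_of_subset_of_nonneg (Finset.subset_univ _) fun i _ _ =>
        zero_le_logHeight₁ _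
    rwa [Finset.sum_pair hi] at this
  have e2 : ∀ a ∈ S, eH (z - a) ≤ (ε * (2 * bH z) + ε * (2 * C3) + |C2|) / 2 := by
    intro a ha
    have h3 := eH_le (z - a) i₁ i₂
    have hm1 : (z - a) i₁ ∈ G₁ := by
      rw [Pi.sub_apply]
      refine sub_mem (AddSubgroup.mem_sup_left hz1) (AddSubgroup.mem_sup_right
        (AddSubgroup.subset_closure ?_))
      exact Finset.mem_coe.2 (Finset.mem_image_of_mem _ ha)
    have hm2 : (z - a) i₂ ∈ G₂ := by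
      rw [Pi.sub_apply]
      refine sub_mem (AddSubgroup.mem_sup_left hz2) (AddSubgroup.mem_sup_right
        (AddSubgroup.subset_closure ?_))
      exact Finset.mem_coe.2 (Finset.mem_image_of_mem _ ha)
    have hev : eval (fun i : Fin 2 => if i = 0 then xc ((z - a) i₁) else xc ((z - a) i₂)) Z1 ≠ 0 := by
      intro h
      refine (hz a (Or.inr ha)).2 ?_
      rw [map_mul, eval_rename]
      have : (fun i => xc (z i - a i)) ∘ j =
          fun i : Fin 2 => if i = 0 then xc ((z - a) i₁) else xc ((z - a) i₂) := by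
        funext i
        fin_cases i <;> rfl
      rw [this, h, mul_zero]
    have h4 := hg ((z - a) i₁, (z - a) i₂) hm1 hm2 hev
    have h5 := hC3 a ha (z i₁) (z i₂)
    have h6 : hh (W₁ := W i₁) (W₂ := W i₂) ((z - a) i₁, (z - a) i₂) =
        hx (z i₁ - a i₁) + hx (z i₂ - a i₂) := rfl
    rw [h6] at h4
    have h7 : ε * (hx (z i₁ - a i₁) + hx (z i₂ - a i₂)) ≤ ε * (2 * bH z + 2 * C3) := by
      refine mul_le_mul_of_nonneg_left ?_ hε.le
      linarith [h5.1, h5.2]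
    have h8 := le_abs_self C2
    have h9 : ε * (2 * bH z + 2 * C3) = ε * (2 * bH z) + ε * (2 * C3) := by ring
    linarith
  have e3 : ∑ a ∈ S, eH (z - a) ≤ S.card * ((ε * (2 * bH z) + ε * (2 * C3) + |C2|) / 2) := by
    have := Finset.sum_le_card_nsmul S _ _ e2
    rwa [nsmul_eq_mul] at this
  have heH0 : ∀ a ∈ S, 0 ≤ eH (z - a) := by
    intro a _
    unfold eH
    have : 0 ≤ PS (fun v : AbsoluteValue K ℝ => ⨅ i, Real.posLog (v (xc ((z - a) i)))) := by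
      have hne : Nonempty (Fin n) := ⟨i₁⟩
      have hbdd : ∀ v : AbsoluteValue K ℝ,
          BddBelow (Set.range fun i => Real.posLog (v (xc ((z - a) i)))) := fun v =>
        (Set.finite_range _).bddBelow
      have h0 : ∀ v : AbsoluteValue K ℝ, 0 ≤ ⨅ i, Real.posLog (v (xc ((z - a) i))) := fun v =>
        le_ciInf fun i => Real.posLog_nonneg
      exact PS_nonneg ((FS_posLog (xc ((z - a) i₁))).mono fun v _ hv =>
        le_antisymm ((ciInf_le (hbdd v) i₁).trans hv.le) (h0 v)) h0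
    positivity
  have hsum0 : 0 ≤ ∑ a ∈ S, eH (z - a) := Finset.sum_nonneg heH0
  have hC01 : C₀ ≤ C₁ := le_max_left _ _
  have e4 : hK z ≤ C₁ * (S.card * ((ε * (2 * bH z) + ε * (2 * C3) + |C2|) / 2)) + C₁ := by
    have h1 : C₀ * ∑ a ∈ S, eH (z - a) ≤ C₁ * ∑ a ∈ S, eH (z - a) :=
      mul_le_mul_of_nonneg_right hC01 hsum0
    have h2 := mul_le_mul_of_nonneg_left e3 hC₁0
    linarith
  have hbH1 : 0 ≤ bH z := Finset.sum_nonneg hbH0
  have e5 : C₁ * (S.card * (ε * 2)) / 2 * bH z ≤ δ * c₀ * bH z :=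
    mul_le_mul_of_nonneg_right hεδ hbH1
  have e6 : δ * (c₀ * bH z - C₁) ≤ δ * hH z :=
    mul_le_mul_of_nonneg_left (by linarith) hδ.le
  have e7 : C₁ * (S.card * ((ε * (2 * bH z) + ε * (2 * C3) + |C2|) / 2)) =
      C₁ * (S.card * (ε * 2)) / 2 * bH z + C₁ * (S.card * ((ε * (2 * C3) + |C2|) / 2)) := by
    ring
  rw [e7] at e4
  linarith

/-- Vojta's inequality from `GCDT`, general form: `V` any set of points with finitely many pairs of maps to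
elliptic curves. -/
theorem vojtaG (hG : GCDT) (K : Type) [Field K] [NumberField K] [DecidableEq K] (V ι : Type)
    [Fintype ι] (E E' : ι → Affine K) (hE : ∀ s, (E s).IsElliptic) (hE' : ∀ s, (E' s).IsElliptic)
    (Γ : ∀ s, AddSubgroup (E s).Point) (Γ' : ∀ s, AddSubgroup (E' s).Point)
    (hΓ : ∀ s, (Γ s).FG) (hΓ' : ∀ s, (Γ' s).FG)
    (φ : ∀ s, V → (E s).Point) (φ' : ∀ s, V → (E' s).Point)
    (hφ : ∀ s z, φ s z ∈ Γ s) (hφ' : ∀ s z, φ' s z ∈ Γ' s)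
    (h hK hN hH : V → ℝ) (c₀ C₀ : ℝ) (Z₀ : Set V) (h0 : ∀ z, 0 ≤ h z)
    (hφh : ∀ s z, hx (φ s z) ≤ C₀ * h z + C₀ ∧ hx (φ' s z) ≤ C₀ * h z + C₀)
    (hcan : ∀ z, z ∉ Z₀ → (∀ s, φ s z ≠ 0 ∧ φ' s z ≠ 0) →
      hK z ≤ C₀ * ∑ s, gg (φ s z, φ' s z) + C₀)
    (hcount : ∀ z, 0 ≤ hN z) (hc₀ : 0 < c₀) (hbig : ∀ z, z ∉ Z₀ → c₀ * h z - C₀ ≤ hH z)
    (δ : ℝ) (hδ : 0 < δ) :
    ∃ (Z : ι → MvPolynomial (Fin 2) K) (C : ℝ), (∀ s, Z s ≠ 0) ∧ ∀ z, z ∉ Z₀ →
      (∀ s, φ s z ≠ 0 ∧ φ' s z ≠ 0 ∧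
        eval (fun i : Fin 2 => if i = 0 then xc (φ s z) else xc (φ' s z)) (Z s) ≠ 0) →
      hK z - δ * hH z - C ≤ hN z := by
  classical
  set C₁ := max C₀ 0 with hC₁
  have hC₁0 : 0 ≤ C₁ := le_max_right _ _
  have hC01 : C₀ ≤ C₁ := le_max_left _ _
  set m : ℝ := (Fintype.card ι : ℝ) with hm
  have hm0 : 0 ≤ m := by positivity
  set ε : ℝ := δ * c₀ / (C₁ * (m * (2 * C₁)) + 1) with hε'
  have hd : 0 < C₁ * (m * (2 * C₁)) + 1 := by positivity
  have hε : 0 < ε := by positivity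
  have hεδ : C₁ * (m * (2 * C₁)) * ε ≤ δ * c₀ := by
    have h1 : C₁ * (m * (2 * C₁)) * ε =
        δ * c₀ * ((C₁ * (m * (2 * C₁))) / (C₁ * (m * (2 * C₁)) + 1)) := by
      rw [hε']; field_simp
    rw [h1]
    have h2 : (C₁ * (m * (2 * C₁))) / (C₁ * (m * (2 * C₁)) + 1) ≤ 1 := by
      rw [div_le_one hd]; linarith
    have h3 : 0 < δ * c₀ := by positivity
    nlinarith
  have hG' : ∀ s, ∃ (Z : MvPolynomial (Fin 2) K) (C : ℝ), Z ≠ 0 ∧
      ∀ z : (E s).Point × (E' s).Point, z.1 ∈ Γ s → z.2 ∈ Γ' s →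
        eval (fun i : Fin 2 => if i = 0 then xc z.1 else xc z.2) Z ≠ 0 →
        gg z ≤ ε * hh z + C := by
    intro s
    haveI := hE s
    haveI := hE' s
    exact hG K (E s) (E' s) (Γ s) (Γ' s) (hΓ s) (hΓ' s) ε hε
  choose Z Cs hZ hg using hG'
  refine ⟨Z, C₁ + δ * C₁ + C₁ * ∑ s, (ε * (2 * C₁) + |Cs s|), hZ, fun z hz0 hz => ?_⟩
  have e1 := hcan z hz0 fun s => ⟨(hz s).1, (hz s).2.1⟩
  have hz1 := h0 z
  have e2 : ∀ s, gg (φ s z, φ' s z) ≤ ε * (2 * C₁) * h z + (ε * (2 * C₁) + |Cs s|) := by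
    intro s
    have h1 := hg s (φ s z, φ' s z) (hφ s z) (hφ' s z) (hz s).2.2
    have h2 := hφh s z
    have h3 : C₀ * h z ≤ C₁ * h z := mul_le_mul_of_nonneg_right hC01 hz1
    have h4 : hh (φ s z, φ' s z) ≤ 2 * C₁ * h z + 2 * C₁ := by
      have : hh (φ s z, φ' s z) = hx (φ s z) + hx (φ' s z) := rfl
      rw [this]
      linarith [h2.1, h2.2]
    have h5 := mul_le_mul_of_nonneg_left h4 hε.le
    have h6 := le_abs_self (Cs s)
    have h7 : ε * (2 * C₁ * h z + 2 * C₁) = ε * (2 * C₁) * h z + ε * (2 * C₁) := by ring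
    linarith
  have e3 : ∑ s, gg (φ s z, φ' s z) ≤
      m * (ε * (2 * C₁) * h z) + ∑ s, (ε * (2 * C₁) + |Cs s|) := by
    have := Finset.sum_le_sum fun s (_ : s ∈ Finset.univ) => e2 s
    rw [Finset.sum_add_distrib, Finset.sum_const, Finset.card_univ, nsmul_eq_mul] at this
    exact this
  have e4 : 0 ≤ ∑ s, gg (φ s z, φ' s z) := Finset.sum_nonneg fun s _ => gg_nonneg _
  have e5 : C₀ * ∑ s, gg (φ s z, φ' s z) ≤
      C₁ * (m * (ε * (2 * C₁) * h z) + ∑ s, (ε * (2 * C₁) + |Cs s|)) :=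
    (mul_le_mul_of_nonneg_right hC01 e4).trans (mul_le_mul_of_nonneg_left e3 hC₁0)
  have e6 := mul_le_mul_of_nonneg_right hεδ hz1
  have e7 : δ * (c₀ * h z - C₁) ≤ δ * hH z :=
    mul_le_mul_of_nonneg_left (by linarith [hbig z hz0]) hδ.le
  have e8 := hcount z
  have e9 : C₁ * (m * (ε * (2 * C₁) * h z)) = C₁ * (m * (2 * C₁)) * ε * h z := by ring
  rw [mul_add, e9] at e5
  have e10 : δ * (c₀ * h z - C₁) = δ * c₀ * h z - δ * C₁ := by ring
  linarith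

end

end Pool.Agent.Helper42.SG
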