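import Pool.Agent.Helper52.SG.Goals

/-! Packet SG-LGR: locally graded groups. -/

set_option autoImplicit false

namespace Pool.Agent.Helper42.SG.LGR

open Subgroup Pool.Agent.Helper52.SG

theorem t : S_LGR := by
  intro G _ hG K hK hinf
  have hFG : Group.FG K := (Group.fg_iff_subgroup_fg K).2 hK
  let R : Subgroup K := ⨅ N : {N : Subgroup K // N.Normal ∧ N.FiniteIndex}, N.1
  have hmem : ∀ x : K, x ∈ R ↔ ∀ N : Subgroup K, N.Normal → N.FiniteIndex → x ∈ N := by
    intro x
    rw [Subgroup.mem_iInf]
    exact ⟨fun h N h1 h2 => h ⟨N, h1, h2⟩, fun h N => h N.1 N.2.1 N.2.2⟩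
  have hle : ∀ N : Subgroup K, N.Normal → N.FiniteIndex → R ≤ N :=
    fun N h1 h2 x hx => (hmem x).1 hx N h1 h2
  have hRn : R.Normal := by
    refine ⟨fun n hn g => ?_⟩
    rw [hmem] at hn ⊢
    intro N h1 h2
    exact h1.conj_mem n (hn N h1 h2) g
  have hRF : RFm R := by
    intro x hx
    rw [hmem] at hx
    push Not at hx
    obtain ⟨N, h1, h2, h3⟩ := hx
    exact ⟨N, h1, h2, hle N h1 h2, h3⟩
  refine ⟨R, hRn, ?_, hRF⟩
  by_contra hfin
  rw [not_infinite_iff_finite] at hfin
  have hRfi : R.FiniteIndex := Subgroup.finiteIndex_of_finite_quotient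
  have hRfg : Group.FG R := Subgroup.fg_of_index_ne_zero R
  -- `R` as a subgroup of `G`
  let e : R ≃* (R.map K.subtype : Subgroup G) :=
    R.equivMapOfInjective K.subtype K.subtype_injective
  have hR'fg : (R.map K.subtype).FG := by
    classical
    obtain ⟨S, hS⟩ := (Group.fg_iff_subgroup_fg R).1 hRfg
    refine ⟨S.image K.subtype, ?_⟩
    rw [Finset.coe_image, ← MonoidHom.map_closure, hS]
  have hRinf : Infinite R := by
    by_contra h
    rw [not_infinite_iff_finite] at h
    have : Finite K := by
      have e2 : K ≃ (K ⧸ R) × R := Subgroup.groupEquivQuotientProdSubgroup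
      exact Finite.of_equiv _ e2.symm
    exact not_finite K
  have hR'ne : R.map K.subtype ≠ ⊥ := by
    intro h
    have h2 : Finite (R.map K.subtype : Subgroup G) := by
      rw [h]
      infer_instance
    have h3 : Finite R := Finite.of_equiv _ e.symm.toEquiv
    exact not_finite R
  obtain ⟨L, hL, hLne⟩ := hG (R.map K.subtype) hR'fg hR'ne
  let L1 : Subgroup R := L.comap e.toMonoidHom
  have hL1 : L1.FiniteIndex := by
    refine ⟨?_⟩
    have h : L1.index = L.index :=
      Subgroup.index_comap_of_surjective L (f := e.toMonoidHom) e.surjective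
    rw [h]
    exact hL.index_ne_zero
  have hL1ne : L1 ≠ ⊤ := by
    intro h
    apply hLne
    rw [Subgroup.eq_top_iff'] at h ⊢
    intro x
    have h2 := h (e.symm x)
    have h3 : e.toMonoidHom (e.symm x) ∈ L := h2
    have h4 : e.toMonoidHom (e.symm x) = x := e.apply_symm_apply x
    rwa [h4] at h3
  let L2 : Subgroup K := L1.map R.subtype
  have hL2 : L2.FiniteIndex := by
    refine ⟨?_⟩
    have h : L2.index = L1.index * R.index := Subgroup.index_map_subtype L1
    rw [h]
    exact mul_ne_zero hL1.index_ne_zero hRfi.index_ne_zero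
  have hcore : R ≤ L2 := by
    have h1 : L2.normalCore.Normal := inferInstance
    have h2 : L2.normalCore.FiniteIndex := inferInstance
    exact (hle _ h1 h2).trans (Subgroup.normalCore_le L2)
  apply hL1ne
  rw [Subgroup.eq_top_iff']
  intro x
  obtain ⟨y, hy, hyx⟩ := hcore x.2
  have h5 : y = x := Subtype.ext hyx
  rwa [h5] at hy

end Pool.Agent.Helper42.SG.LGR
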