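import Pool.Agent.Helper42.SG.Hand
import Pool.Agent.Helper92.SGE.Main
import Pool.Agent.Helper7.SGM.SEQ
import Pool.Agent.Helper54.SGM.CLS
import Pool.Agent.Helper35.SGM.FINH
import Pool.Agent.Helper35.SGM.LAWCG
import Pool.Agent.Helper32.SGM.LOCEG
import Pool.Agent.Helper29.BL.Asm
import Pool.Agent.Helper11.SG.AsmP4
import Pool.Agent.Helper77.SGC.Main
import Pool.Agent.Helper66.SG.Main
import Pool.Agent.Helper66.SG.IXR
import Pool.Agent.Helper66.SG2.TAYZ
import Pool.Agent.Helper66.SG2.QIX2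
import Pool.Agent.Helper40.SGE.MINA
import Pool.Agent.Helper52.SG2.GLOB2
import Pool.Agent.Helper39.SGE.HTL
import Pool.Agent.Helper31.SGE.CVAL
import Pool.Agent.Helper35.SG2.NUM2
import Pool.Agent.Helper39.SG2.GEO2
import Pool.Agent.Helper40.SG2.DEG1
import Pool.Agent.Helper13.SGE.QTR
import Pool.Agent.Helper79.SGE.NDG
import Pool.Agent.Helper12.SGB.All
import Pool.Agent.Helper65.SG.All

/-!
# Project SG: the theorem `GCDT`
-/

set_option autoImplicit false

namespace Pool.Agent.Helper42.SG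

theorem th_seq : SEQ := Pool.Agent.Helper7.SGM.t_SEQ Pool.Agent.Helper54.SGM.t_CLS

theorem th_ptwo : PTWO :=
  Pool.Agent.Helper11.SG.ptwo_of Pool.Agent.Helper77.SGC.auxc' Pool.Agent.Helper65.SG.th_NQ
    Pool.Agent.Helper66.SG.resf Pool.Agent.Helper66.SG.t_ixr Pool.Agent.Helper66.SG.zer
    Pool.Agent.Helper66.SG2.t_TAYZ Pool.Agent.Helper66.SG2.t_QIX2
    Pool.Agent.Helper40.SGE.mina
    (Pool.Agent.Helper35.SGM.t_LAWCG Pool.Agent.Helper12.SGB.th_RPOL
      Pool.Agent.Helper31.SGT.t_MINC)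
    (Pool.Agent.Helper32.SGM.t_LOCEG Pool.Agent.Helper65.SG.th_FRPS)
    Pool.Agent.Helper12.SGB.th_ELAW Pool.Agent.Helper12.SGB.th_ELOC
    Pool.Agent.Helper12.SGB.th_EUP
    (Pool.Agent.Helper52.SG2.t_GLOB2 Pool.Agent.Helper39.SGE.htl)
    Pool.Agent.Helper31.SGE.cval Pool.Agent.Helper35.SG2.t_NUM2
    (Pool.Agent.Helper39.SG2.t_GEO2 Pool.Agent.Helper13.SGE.qtr
      (Pool.Agent.Helper79.SGE.ndg Pool.Agent.Helper12.SGB.th_EDUP
        Pool.Agent.Helper12.SGB.th_EUP))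
    Pool.Agent.Helper40.SG2.t_DEG1

/-- **Silverman's gcd conjecture** for finitely generated groups of points on two elliptic curves. -/
theorem th_gcdt : GCDT :=
  gcdt Pool.Agent.Helper29.BL.th_can Pool.Agent.Helper29.BL.qsn th_seq
    Pool.Agent.Helper92.SGE.th_PONE th_ptwo Pool.Agent.Helper35.SGM.t_FINH

end Pool.Agent.Helper42.SG
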